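import Pool.Agent.Lib.TWLG76.Twist
import Pool.Agent.Lib.TWLG64.E2s

/-!
# CT, j = 1: the good coordinates in the words of `TWLG64`
-/

set_option autoImplicit false

namespace Pool.Agent.TWLG76

open MvPolynomial
open Pool.Agent.H15JM (RVal)
open Pool.Agent.D2 (Ctx0)
open Pool.Agent.TWM (Gt)
open Pool.Agent.TWLY (Ex wt)

universe u

variable {k Ω : Type u} [Field k] [Field Ω] [Algebra k Ω] {v : RVal Ω}

theorem LL_eq (y : Fin 2 → Ω) (Φ : Polynomial Ω) :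
    TWLG64.LL k y Φ = LL (k := k) (y 0) (Polynomial.C (y 1) + Φ) := by
  unfold TWLG64.LL LL
  congr 1
  funext i
  fin_cases i
  · rfl
  · simp [add_assoc, algebraMap_eq]

theorem dns_iff {w : Fin 2 → ℝ} {y : Fin 2 → Ω} {Φ : Polynomial Ω} :
    TWLG64.Dns k v w y Φ ↔ Dns k v w (y 0) (Polynomial.C (y 1) + Φ) := by
  unfold TWLG64.Dns Dns TWLG64.mp
  rw [LL_eq]

/-- **Good coordinates**, in the words of `TWLG64`. -/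
theorem exists_pos (p : ℕ) [hp : Fact p.Prime] [CharP k p] [CharP Ω p] [IsAlgClosed k]
    (hk : Ctx0 k v) {w₀ : ℝ} (hw0 : 0 < w₀) {y₀ : Ω} (hy0 : y₀ ≠ 0) (hv : v y₀ = - w₀)
    {Ψ : Polynomial Ω}
    (hdec : ∀ j : ℕ, 1 ≤ j → ∃ r : Polynomial k,
      Gt v (-(w₀ - j * w₀)) (Ψ.coeff j - Polynomial.aeval y₀ r)) :
    ∃ (f : Polynomial k) (w₁ : ℝ), f.coeff 0 = 0 ∧
      (w₁ < w₀ ∧ (∀ j : ℕ, v.Ge (-(w₁ - j * w₀)) ((Sh y₀ f Ψ).coeff j)) ∨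
      (w₀ ≤ w₁ ∧ TWLG64.Siz v ![w₀, w₁] ![y₀, 0] (Sh y₀ f Ψ) ∧
        (∃ j : ℕ, (Sh y₀ f Ψ).coeff j ≠ 0 ∧ v ((Sh y₀ f Ψ).coeff j) = j * w₀ - w₁) ∧
        TWLG64.Dns k v ![w₀, w₁] ![y₀, 0] (Sh y₀ f Ψ) ∧
        ∀ j : ℕ, Gt v 0 ((Sh y₀ f Ψ).coeff j) → Gt v (j * w₀ - w₁) ((Sh y₀ f Ψ).coeff j))) := by
  obtain ⟨f, w₁, h1, h2, h3⟩ := exists_good_pos p hk hw0 hy0 hv hdec
  refine ⟨f, w₁, h1, ?_⟩
  rcases h3 with h3 | ⟨h3, ⟨j, h4, h4'⟩, h5, h6⟩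
  · exact Or.inl ⟨h3, h2⟩
  · refine Or.inr ⟨h3, ⟨fun i => ?_, fun j => ?_⟩, ⟨j, h4, by rw [h4']; ring⟩, ?_,
      fun j hj => (h6 j hj).mono (by linarith)⟩
    · fin_cases i
      · intro _
        rw [show ((![y₀, 0] : Fin 2 → Ω) ⟨0, by decide⟩) = y₀ from rfl, hv]
        rfl
      · exact RVal.Ge.zero
    · exact (h2 j).mono (by
        change (j : ℝ) * w₀ - w₁ ≤ -(w₁ - j * w₀)
        linarith)
    · rw [dns_iff]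
      simpa using h5

end Pool.Agent.TWLG76
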