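import Pool.Agent.Lib.TWLG76.Pos

/-!
# CT, j = 1: good coordinates, without any hypothesis on the coefficients

The coefficients of size `≤ 0` are dropped: they may be subtracted, the relations are relations in `O_0`.
* `Tr w₀ w₁ Ψ`: the coefficients `Ψ_j` with `j * w₀ < w₁`;
* `exists_trunc`: for every `Ψ` there is a change of coordinates `f` such that the other coefficients of
  `Sh y₀ f Ψ` are of size `≤ 0` and `Tr w₀ w₁ (Sh y₀ f Ψ)` is good (`Siz`, `Dns`), or `w₁ < w₀`.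
-/

set_option autoImplicit false

namespace Pool.Agent.TWLG76

open MvPolynomial
open Pool.Agent.H15JM (RVal)
open Pool.Agent.D2 (Ctx0)
open Pool.Agent.TWM (Gt)
open Pool.Agent.TWLY (Ex wt)

universe u

variable {k Ω : Type u} [Field k] [Field Ω] [Algebra k Ω] {v : RVal Ω}

open Classical in
/-- The coefficients with a positive threshold. -/
noncomputable def Tr (w₀ w₁ : ℝ) (Ψ : Polynomial Ω) : Polynomial Ω :=
  ∑ j ∈ Ψ.support, Polynomial.monomial j (if (j : ℝ) * w₀ < w₁ then Ψ.coeff j else 0)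

open Classical in
theorem coeff_Tr (w₀ w₁ : ℝ) (Ψ : Polynomial Ω) (j : ℕ) :
    (Tr w₀ w₁ Ψ).coeff j = if (j : ℝ) * w₀ < w₁ then Ψ.coeff j else 0 := by
  rw [Tr, Polynomial.finsetSum_coeff]
  by_cases h : j ∈ Ψ.support
  · rw [Finset.sum_eq_single_of_mem j h, Polynomial.coeff_monomial, if_pos rfl]
    intro i _ hi
    rw [Polynomial.coeff_monomial, if_neg hi]
  · rw [Finset.sum_eq_zero, Polynomial.notMem_support_iff.1 h, ite_self]
    intro i hi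
    rw [Polynomial.coeff_monomial, if_neg]
    rintro rfl
    exact h hi

theorem coeff_Tr_lt {w₀ w₁ : ℝ} {Ψ : Polynomial Ω} {j : ℕ} (h : (j : ℝ) * w₀ < w₁) :
    (Tr w₀ w₁ Ψ).coeff j = Ψ.coeff j := by
  rw [coeff_Tr, if_pos h]

theorem coeff_Tr_ge {w₀ w₁ : ℝ} {Ψ : Polynomial Ω} {j : ℕ} (h : w₁ ≤ (j : ℝ) * w₀) :
    (Tr w₀ w₁ Ψ).coeff j = 0 := by
  rw [coeff_Tr, if_neg (not_lt.2 h)]

/-- The rest is of size `≤ 0`. -/
theorem ge_sub_Tr {w₀ w₁ : ℝ} {Ψ : Polynomial Ω}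
    (h : ∀ j : ℕ, v.Ge (min 0 (-(w₁ - j * w₀))) (Ψ.coeff j)) (j : ℕ) :
    v.Ge 0 ((Ψ - Tr w₀ w₁ Ψ).coeff j) := by
  rw [Polynomial.coeff_sub]
  by_cases hj : (j : ℝ) * w₀ < w₁
  · rw [coeff_Tr_lt hj, sub_self]
    exact RVal.Ge.zero
  · rw [coeff_Tr_ge (not_lt.1 hj), sub_zero]
    refine (h j).mono ?_
    rw [min_eq_left]
    push Not at hj
    linarith

/-- The coefficients of the rest: `0`, or a coefficient in a degree `j` with `w₁ ≤ j * w₀`. -/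
theorem coeff_sub_Tr (w₀ w₁ : ℝ) (Ψ : Polynomial Ω) (j : ℕ) :
    (Ψ - Tr w₀ w₁ Ψ).coeff j = 0 ∨
      (w₁ ≤ j * w₀ ∧ (Ψ - Tr w₀ w₁ Ψ).coeff j = Ψ.coeff j) := by
  rw [Polynomial.coeff_sub]
  by_cases hj : (j : ℝ) * w₀ < w₁
  · exact Or.inl (by rw [coeff_Tr_lt hj, sub_self])
  · exact Or.inr ⟨not_lt.1 hj, by rw [coeff_Tr_ge (not_lt.1 hj), sub_zero]⟩

theorem ge_Tr {w₀ w₁ : ℝ} {Ψ : Polynomial Ω}
    (h : ∀ j : ℕ, v.Ge (min 0 (-(w₁ - j * w₀))) (Ψ.coeff j)) (j : ℕ) :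
    v.Ge (-(w₁ - j * w₀)) ((Tr w₀ w₁ Ψ).coeff j) := by
  by_cases hj : (j : ℝ) * w₀ < w₁
  · rw [coeff_Tr_lt hj]
    refine (h j).mono ?_
    rw [min_eq_right]
    linarith
  · rw [coeff_Tr_ge (not_lt.1 hj)]
    exact RVal.Ge.zero

/-- The threshold of a polynomial. -/
theorem exists_thr {w₀ : ℝ} (hw0 : 0 ≤ w₀) (Ψ : Polynomial Ω) :
    ∃ w₁ : ℝ, 0 ≤ w₁ ∧ (∀ j : ℕ, v.Ge (min 0 (-(w₁ - j * w₀))) (Ψ.coeff j)) ∧
      (0 < w₁ → ∃ j : ℕ, j * w₀ < w₁ ∧ Ψ.coeff j ≠ 0 ∧ v (Ψ.coeff j) = -(w₁ - j * w₀)) := by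
  classical
  set S := Ψ.support.filter (fun j => v (Ψ.coeff j) < 0) with hS
  have hS' : ∀ j, j ∈ S ↔ Ψ.coeff j ≠ 0 ∧ v (Ψ.coeff j) < 0 := fun j => by
    rw [hS, Finset.mem_filter, Polynomial.mem_support_iff]
  by_cases h0 : S = ∅
  · refine ⟨0, le_refl _, fun j hj => ?_, fun h => absurd h (lt_irrefl _)⟩
    by_contra h1
    push Not at h1
    have h2 : (0 : ℝ) ≤ j * w₀ := by positivity
    rw [min_eq_left (by linarith)] at h1
    have h3 : j ∈ S := (hS' j).2 ⟨hj, h1⟩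
    rw [h0] at h3
    exact absurd h3 (Finset.notMem_empty j)
  · obtain ⟨j₀, hj₀, hmax⟩ := Finset.exists_max_image S
      (fun j => - v (Ψ.coeff j) + j * w₀) (Finset.nonempty_iff_ne_empty.2 h0)
    obtain ⟨h1, h2⟩ := (hS' j₀).1 hj₀
    have h3 : (0 : ℝ) ≤ j₀ * w₀ := by positivity
    refine ⟨- v (Ψ.coeff j₀) + j₀ * w₀, by linarith, fun j hj => ?_, fun _ => ⟨j₀, by linarith, h1,
      by ring⟩⟩
    by_cases hjS : v (Ψ.coeff j) < 0
    · have h4 := hmax j ((hS' j).2 ⟨hj, hjS⟩)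
      refine (min_le_right _ _).trans ?_
      linarith
    · exact (min_le_left _ _).trans (not_lt.1 hjS)

/-- **Good coordinates by truncation.** -/
theorem exists_trunc (p : ℕ) [hp : Fact p.Prime] [CharP k p] [CharP Ω p] [IsAlgClosed k]
    (hk : Ctx0 k v) {w₀ : ℝ} (hw0 : 0 < w₀) {y₀ : Ω} (hy0 : y₀ ≠ 0) (hv : v y₀ = - w₀)
    (Ψ : Polynomial Ω) :
    ∃ (f : Polynomial k) (w₁ : ℝ), f.coeff 0 = 0 ∧ 0 ≤ w₁ ∧
      (∀ j : ℕ, v.Ge (min 0 (-(w₁ - j * w₀))) ((Sh y₀ f Ψ).coeff j)) ∧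
      (w₁ < w₀ ∨ (w₀ ≤ w₁ ∧ (∃ j : ℕ, j * w₀ < w₁ ∧ (Sh y₀ f Ψ).coeff j ≠ 0 ∧
        v ((Sh y₀ f Ψ).coeff j) = -(w₁ - j * w₀)) ∧
        Dns k v ![w₀, w₁] y₀ (Tr w₀ w₁ (Sh y₀ f Ψ)))) := by
  classical
  have key : ∀ (n : ℕ) (Ψ : Polynomial Ω),
      (∀ j : ℕ, v.Ge 0 (Ψ.coeff j) ∨ Gt v (-(n * w₀ - j * w₀)) (Ψ.coeff j)) →
      ∃ (f : Polynomial k) (w₁ : ℝ), f.coeff 0 = 0 ∧ 0 ≤ w₁ ∧
      (∀ j : ℕ, v.Ge (min 0 (-(w₁ - j * w₀))) ((Sh y₀ f Ψ).coeff j)) ∧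
      (w₁ < w₀ ∨ (w₀ ≤ w₁ ∧ (∃ j : ℕ, j * w₀ < w₁ ∧ (Sh y₀ f Ψ).coeff j ≠ 0 ∧
        v ((Sh y₀ f Ψ).coeff j) = -(w₁ - j * w₀)) ∧
        Dns k v ![w₀, w₁] y₀ (Tr w₀ w₁ (Sh y₀ f Ψ)))) := by
    intro n
    induction n with
    | zero =>
      intro Ψ h
      refine ⟨0, 0, Polynomial.coeff_zero 0, le_refl _, fun j => ?_, Or.inl hw0⟩
      rw [Sh_zero]
      have h2 : (0 : ℝ) ≤ j * w₀ := by positivity
      rw [min_eq_left (by linarith)]
      rcases h j with h1 | h1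
      · exact h1
      · rw [Nat.cast_zero, zero_mul] at h1
        exact h1.ge.mono (by linarith)
    | succ n ih =>
      intro Ψ h
      obtain ⟨w₁, hw1, hge, hatt⟩ := exists_thr (v := v) hw0.le Ψ
      by_cases hlt : w₁ < w₀
      · refine ⟨0, w₁, Polynomial.coeff_zero 0, hw1, fun j => ?_, Or.inl hlt⟩
        rw [Sh_zero]
        exact hge j
      push Not at hlt
      obtain ⟨j₀, hj₀w, hj₀', hjv⟩ := hatt (hw0.trans_le hlt)
      by_cases hD : Dns k v ![w₀, w₁] y₀ (Tr w₀ w₁ Ψ)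
      · refine ⟨0, w₁, Polynomial.coeff_zero 0, hw1, fun j => ?_,
          Or.inr ⟨hlt, ⟨j₀, hj₀w, ?_, ?_⟩, ?_⟩⟩
        · rw [Sh_zero]
          exact hge j
        · rwa [Sh_zero]
        · rwa [Sh_zero]
        · rwa [Sh_zero]
      · unfold Dns at hD
        push Not at hD
        obtain ⟨d', hd, H, hiso, hinv, hH⟩ := hD
        obtain ⟨m, a, hm, hwm, h1⟩ := bad_of_inv p hk (w := ![w₀, w₁]) hw0 hlt hy0 hv
          (Ψ := Tr w₀ w₁ Ψ) (j₀ := j₀) (by rwa [coeff_Tr_lt hj₀w]) (by rwa [coeff_Tr_lt hj₀w]) hd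
          hH hiso hinv
        have hwm' : w₁ = m * w₀ := hwm
        have hmn : m ≤ n := by
          have h2 : v (Ψ.coeff j₀) < 0 := by
            rw [hjv]
            linarith
          have h3 : Gt v (-(((n + 1 : ℕ) : ℝ) * w₀ - j₀ * w₀)) (Ψ.coeff j₀) := by
            rcases h j₀ with h4 | h4
            · exact absurd (h4 hj₀') (not_le.2 h2)
            · exact h4
          have h4 := h3 hj₀'
          rw [hjv, hwm'] at h4
          have h5 : (m : ℝ) * w₀ < ((n + 1 : ℕ) : ℝ) * w₀ := by linarith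
          have h6 : (m : ℝ) < ((n + 1 : ℕ) : ℝ) := lt_of_mul_lt_mul_right h5 hw0.le
          have h7 : m < n + 1 := by exact_mod_cast h6
          omega
        obtain ⟨g, w', hg, hw', h2, h3⟩ := ih (Sh y₀ (Polynomial.C a * Polynomial.X ^ m) Ψ)
            (fun j => by
          rw [Sh_mon]
          by_cases hj : (j : ℝ) * w₀ < w₁
          · right
            have h4 := h1 j
            rw [Polynomial.coeff_sub, Polynomial.coeff_add, coeff_Tr_lt hj] at h4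
            rw [Polynomial.coeff_sub, Polynomial.coeff_add]
            refine h4.mono ?_
            have h5 : (m : ℝ) * w₀ ≤ n * w₀ :=
              mul_le_mul_of_nonneg_right (by exact_mod_cast hmn) hw0.le
            change -((n : ℝ) * w₀ - j * w₀) ≤ -(w₁ - j * w₀)
            rw [hwm']
            linarith
          · left
            push Not at hj
            have hmj : m ≤ j := by
              rw [hwm'] at hj
              have h4 : (m : ℝ) ≤ j := le_of_mul_le_mul_right hj hw0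
              exact_mod_cast h4
            have h4 : v.Ge 0 (Ψ.coeff j) := by
              refine (hge j).mono ?_
              rw [min_eq_left]
              linarith
            have h5 : (Ψ + Polynomial.C (algebraMap k Ω a) * Polynomial.X ^ m -
                Polynomial.C (algebraMap k Ω a) * (Polynomial.X + Polynomial.C y₀) ^ m).coeff j =
                Ψ.coeff j := by
              rw [Polynomial.coeff_sub, Polynomial.coeff_add, Polynomial.coeff_C_mul,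
                Polynomial.coeff_C_mul, Polynomial.coeff_X_pow, Polynomial.coeff_X_add_C_pow]
              rcases hmj.eq_or_lt with rfl | h6
              · rw [if_pos rfl, Nat.sub_self, pow_zero, Nat.choose_self, Nat.cast_one]
                ring
              · rw [if_neg h6.ne', Nat.choose_eq_zero_of_lt h6, Nat.cast_zero]
                ring
            rw [h5]
            exact h4)
        rw [← Sh_add] at h3
        refine ⟨Polynomial.C a * Polynomial.X ^ m + g, w', ?_, hw', fun j => ?_, h3⟩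
        · rw [Polynomial.coeff_add, hg, add_zero, Polynomial.coeff_C_mul, Polynomial.coeff_X_pow,
            if_neg (by omega), mul_zero]
        · rw [Sh_add]
          exact h2 j
  obtain ⟨n, hn⟩ : ∃ n : ℕ, (∑ j ∈ Ψ.support, (|v (Ψ.coeff j)| + j * w₀)) / w₀ < n :=
    exists_nat_gt _
  refine key n Ψ fun j => Or.inr fun hj => ?_
  have h1 : |v (Ψ.coeff j)| + j * w₀ ≤ ∑ j ∈ Ψ.support, (|v (Ψ.coeff j)| + j * w₀) :=
    Finset.single_le_sum (f := fun j : ℕ => |v (Ψ.coeff j)| + j * w₀) (fun i _ => by positivity)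
      (Polynomial.mem_support_iff.2 hj)
  rw [div_lt_iff₀ hw0] at hn
  have h2 := neg_abs_le (v (Ψ.coeff j))
  linarith

/-- **Good coordinates by truncation**, in the words of `TWLG64`, with the case `w₀ = 0`. -/
theorem exists_trunc' (p : ℕ) [hp : Fact p.Prime] [CharP k p] [CharP Ω p] [IsAlgClosed k]
    (hk : Ctx0 k v) {w₀ : ℝ} (hw0 : 0 ≤ w₀) {y₀ : Ω} (hy : 0 < w₀ → y₀ ≠ 0 ∧ v y₀ = - w₀)
    (hy' : w₀ = 0 → v.Ge 0 y₀) (Ψ : Polynomial Ω) :
    ∃ (f : Polynomial k) (w₁ : ℝ), f.coeff 0 = 0 ∧ 0 ≤ w₁ ∧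
      (∀ j : ℕ, v.Ge (min 0 (-(w₁ - j * w₀))) ((Sh y₀ f Ψ).coeff j)) ∧
      (w₁ < w₀ ∨ (w₀ = 0 ∧ w₁ = 0) ∨ (w₀ ≤ w₁ ∧ 0 < w₁ ∧
        (∃ j : ℕ, j * w₀ < w₁ ∧ (Sh y₀ f Ψ).coeff j ≠ 0 ∧
          v ((Sh y₀ f Ψ).coeff j) = -(w₁ - j * w₀)) ∧
        TWLG64.Siz v ![w₀, w₁] ![y₀, 0] (Tr w₀ w₁ (Sh y₀ f Ψ)) ∧
        TWLG64.Dns k v ![w₀, w₁] ![y₀, 0] (Tr w₀ w₁ (Sh y₀ f Ψ)))) := by
  have hsiz : ∀ {w₁ : ℝ} {Ψ' : Polynomial Ω}, (∀ j : ℕ, v.Ge (min 0 (-(w₁ - j * w₀))) (Ψ'.coeff j)) →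
      TWLG64.Siz v ![w₀, w₁] ![y₀, 0] (Tr w₀ w₁ Ψ') := by
    intro w₁ Ψ' h
    refine ⟨fun i => ?_, fun j => ?_⟩
    · fin_cases i
      · rcases hw0.eq_or_lt with h0 | h0
        · have h1 := hy' h0.symm
          change v.Ge (-w₀) y₀
          rw [← h0, neg_zero]
          exact h1
        · intro _
          change - w₀ ≤ v y₀
          rw [(hy h0).2]
      · exact RVal.Ge.zero
    · refine (ge_Tr h j).mono ?_
      change (j : ℝ) * w₀ - w₁ ≤ -(w₁ - j * w₀)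
      linarith
  rcases hw0.eq_or_lt with h0 | h0
  · subst h0
    obtain ⟨w₁, hw1, hge, hatt⟩ := exists_thr (v := v) (le_refl (0 : ℝ)) Ψ
    refine ⟨0, w₁, Polynomial.coeff_zero 0, hw1, fun j => ?_, ?_⟩
    · rw [Sh_zero]
      exact hge j
    rcases hw1.eq_or_lt with h1 | h1
    · exact Or.inr (Or.inl ⟨rfl, h1.symm⟩)
    · obtain ⟨j₀, hj₀w, hj₀', hjv⟩ := hatt h1
      refine Or.inr (Or.inr ⟨hw1, h1, ⟨j₀, hj₀w, ?_, ?_⟩, ?_, ?_⟩)
      · rwa [Sh_zero]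
      · rwa [Sh_zero]
      · rw [Sh_zero]
        exact hsiz hge
      · rw [Sh_zero, dns_iff]
        have h2 : ∀ j : ℕ, (Polynomial.C ((![y₀, 0] : Fin 2 → Ω) 1) + Tr 0 w₁ Ψ).coeff j =
            (Tr 0 w₁ Ψ).coeff j := fun j => by
          simp
        refine dns_zero p hk h1 (hy' rfl) (fun j => ?_) (j₀ := j₀) ?_ ?_
        · rw [h2]
          refine (ge_Tr hge j).mono ?_
          rw [mul_zero, sub_zero]
        · rw [h2, coeff_Tr_lt hj₀w]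
          exact hj₀'
        · rw [h2, coeff_Tr_lt hj₀w, hjv, mul_zero, sub_zero]
  · obtain ⟨f, w₁, h1, h2, h3, h4⟩ := exists_trunc p hk h0 (hy h0).1 (hy h0).2 Ψ
    refine ⟨f, w₁, h1, h2, h3, ?_⟩
    rcases h4 with h4 | ⟨h4, h5, h6⟩
    · exact Or.inl h4
    · refine Or.inr (Or.inr ⟨h4, h0.trans_le h4, h5, hsiz h3, ?_⟩)
      rw [dns_iff]
      simpa using h6

end Pool.Agent.TWLG76
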