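import Pool.Agent.Lib.TWLG64.TrL

/-!
# CT, j = 1: good coordinates by truncation, with bounds

* `exists_truncP`: `exists_truncL` with a bound for the change of coordinates `f`: the weights of `f` are
  at most every `B` with `|Ψ_j| ≤ max 0 (B - j * w₀)`; if `Ψ` is a polynomial in `s ^ p` then the exponents
  of `f` are `1` or divisible by `p`.
-/

set_option autoImplicit false

namespace Pool.Agent.TWLG76

open MvPolynomial
open Pool.Agent.H15JM (RVal)
open Pool.Agent.D2 (Ctx0)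
open Pool.Agent.TWM (Gt)
open Pool.Agent.TWLY (Ex wt)

universe u

variable {k Ω : Type u} [Field k] [Field Ω] [Algebra k Ω] {v : RVal Ω}

/-- The bad step, in the variable `s ^ p`. -/
theorem dvd_of_bad (p : ℕ) [hp : Fact p.Prime] [CharP k p] [CharP Ω p] (hk : Ctx0 k v) {w₀ : ℝ}
    {y₀ : Ω} (hy0 : y₀ ≠ 0) (hv : v y₀ = - w₀) {Ψ : Polynomial Ω}
    (hΨ : ∀ j : ℕ, ¬ p ∣ j → Ψ.coeff j = 0) {m : ℕ} {a : k} (ha : a ≠ 0)
    (h : ∀ j : ℕ, Gt v (-((m : ℝ) * w₀ - j * w₀))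
      ((Ψ + Polynomial.C (algebraMap k Ω a) * Polynomial.X ^ m -
        Polynomial.C (algebraMap k Ω a) * (Polynomial.X + Polynomial.C y₀) ^ m).coeff j)) :
    m = 1 ∨ p ∣ m := by
  by_contra hc
  push Not at hc
  obtain ⟨h1, h2⟩ := hc
  have hm0 : m ≠ 0 := fun h3 => h2 (by rw [h3]; exact dvd_zero p)
  have h3 := h 1
  have h4 : ¬ p ∣ 1 := hp.out.one_lt.ne' ∘ Nat.dvd_one.1
  have hmk : ((m : ℕ) : Ω) ≠ 0 := by
    rw [Ne, CharP.cast_eq_zero_iff Ω p]
    exact h2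
  have ha' : algebraMap k Ω a ≠ 0 := by
    rw [Ne, map_eq_zero]
    exact ha
  have hmk' : ((m : ℕ) : k) ≠ 0 := by
    rw [Ne, CharP.cast_eq_zero_iff k p]
    exact h2
  rw [Polynomial.coeff_sub, Polynomial.coeff_add, hΨ 1 h4, Polynomial.coeff_C_mul,
    Polynomial.coeff_C_mul, Polynomial.coeff_X_pow, Polynomial.coeff_X_add_C_pow,
    if_neg (Ne.symm h1), mul_zero, zero_add, zero_sub, Nat.choose_one_right] at h3
  have h5 : algebraMap k Ω a * (y₀ ^ (m - 1) * (m : Ω)) ≠ 0 :=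
    mul_ne_zero ha' (mul_ne_zero (pow_ne_zero _ hy0) hmk)
  have h6 := h3 (neg_ne_zero.2 h5)
  rw [v.map_neg _ h5, v.map_mul ha' (mul_ne_zero (pow_ne_zero _ hy0) hmk),
    v.map_mul (pow_ne_zero _ hy0) hmk, hk.triv _ ha, v.map_pow hy0, hv] at h6
  have h7 : v ((m : ℕ) : Ω) = 0 := by
    have := hk.triv _ hmk'
    rwa [map_natCast] at this
  rw [h7] at h6
  have h8 : ((m - 1 : ℕ) : ℝ) = m - 1 := by
    rw [Nat.cast_sub (Nat.one_le_iff_ne_zero.2 hm0), Nat.cast_one]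
  rw [h8] at h6
  push_cast at h6
  linarith

theorem coeff_step_zero (p : ℕ) [hp : Fact p.Prime] [CharP Ω p] {y₀ : Ω} {Ψ : Polynomial Ω}
    (hΨ : ∀ j : ℕ, ¬ p ∣ j → Ψ.coeff j = 0) {m : ℕ} (b : Ω) (hm : m = 1 ∨ p ∣ m) (j : ℕ)
    (hj : ¬ p ∣ j) :
    (Ψ + Polynomial.C b * Polynomial.X ^ m -
        Polynomial.C b * (Polynomial.X + Polynomial.C y₀) ^ m).coeff j = 0 := by
  have hj0 : j ≠ 0 := fun h => hj (by rw [h]; exact dvd_zero p)
  rw [Polynomial.coeff_sub, Polynomial.coeff_add, hΨ j hj, Polynomial.coeff_C_mul,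
    Polynomial.coeff_C_mul, Polynomial.coeff_X_pow, Polynomial.coeff_X_add_C_pow, zero_add]
  rcases hm with rfl | ⟨n, rfl⟩
  · by_cases h1 : j = 1
    · subst h1
      simp
    · rw [if_neg h1, Nat.choose_eq_zero_of_lt (by omega), Nat.cast_zero]
      ring
  · rw [if_neg (fun h => hj ⟨n, h⟩), mul_zero, zero_sub, neg_eq_zero]
    have h1 : ((p * n).choose j : Ω) = 0 := by
      have h2 := choose_cast_zero (R := Ω) (p := p) (e := 1) (n := n) (r := j) (by rwa [pow_one])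
      rwa [pow_one] at h2
    rw [h1]
    ring

/-- **Good coordinates by truncation, with bounds.** `R` is `True` or `False`. -/
theorem exists_trunc_gen (p : ℕ) [hp : Fact p.Prime] [CharP k p] [CharP Ω p] [IsAlgClosed k]
    (hk : Ctx0 k v) {w₀ : ℝ} (hw0 : 0 < w₀) {y₀ : Ω} (hy0 : y₀ ≠ 0) (hv : v y₀ = - w₀)
    (R : Prop) (Ψ : Polynomial Ω) (hR : R → ∀ j : ℕ, ¬ p ∣ j → Ψ.coeff j = 0) {W₁ : ℝ}
    (hW0 : 0 ≤ W₁) (hW : ∀ j : ℕ, v.Ge (min 0 (-(W₁ - j * w₀))) (Ψ.coeff j)) :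
    ∃ (f : Polynomial k) (w₁ : ℝ), f.coeff 0 = 0 ∧ 0 ≤ w₁ ∧ w₁ ≤ W₁ ∧
      (∀ j : ℕ, f.coeff j ≠ 0 → j * w₀ ≤ W₁) ∧
      (R → ∀ j : ℕ, ¬ p ∣ j → j ≠ 1 → f.coeff j = 0) ∧
      (R → ∀ j : ℕ, ¬ p ∣ j → (Sh y₀ f Ψ).coeff j = 0) ∧
      (∀ j : ℕ, v.Ge (min 0 (-(w₁ - j * w₀))) ((Sh y₀ f Ψ).coeff j)) ∧
      (w₁ < w₀ ∨ (w₀ ≤ w₁ ∧ (∃ j : ℕ, j * w₀ < w₁ ∧ (Sh y₀ f Ψ).coeff j ≠ 0 ∧
        v ((Sh y₀ f Ψ).coeff j) = -(w₁ - j * w₀)) ∧
        Dns k v ![w₀, w₁] y₀ (Tr w₀ w₁ (Sh y₀ f Ψ)))) := by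
  classical
  have key : ∀ (n : ℕ) (Ψ : Polynomial Ω), (R → ∀ j : ℕ, ¬ p ∣ j → Ψ.coeff j = 0) →
      (∀ j : ℕ, v.Ge (min 0 (-(W₁ - j * w₀))) (Ψ.coeff j)) →
      (∀ j : ℕ, v.Ge 0 (Ψ.coeff j) ∨ Gt v (-(n * w₀ - j * w₀)) (Ψ.coeff j)) →
      ∃ (f : Polynomial k) (w₁ : ℝ), f.coeff 0 = 0 ∧ 0 ≤ w₁ ∧ w₁ ≤ W₁ ∧
      (∀ j : ℕ, f.coeff j ≠ 0 → j * w₀ ≤ W₁) ∧
      (R → ∀ j : ℕ, ¬ p ∣ j → j ≠ 1 → f.coeff j = 0) ∧
      (R → ∀ j : ℕ, ¬ p ∣ j → (Sh y₀ f Ψ).coeff j = 0) ∧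
      (∀ j : ℕ, v.Ge (min 0 (-(w₁ - j * w₀))) ((Sh y₀ f Ψ).coeff j)) ∧
      (w₁ < w₀ ∨ (w₀ ≤ w₁ ∧ (∃ j : ℕ, j * w₀ < w₁ ∧ (Sh y₀ f Ψ).coeff j ≠ 0 ∧
        v ((Sh y₀ f Ψ).coeff j) = -(w₁ - j * w₀)) ∧
        Dns k v ![w₀, w₁] y₀ (Tr w₀ w₁ (Sh y₀ f Ψ)))) := by
    intro n
    induction n with
    | zero =>
      intro Ψ hR hW h
      refine ⟨0, 0, Polynomial.coeff_zero 0, le_refl _, hW0, fun j hj => ?_, fun _ j _ _ => ?_,
        fun hr j hj => ?_, fun j => ?_, Or.inl hw0⟩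
      · exact absurd (Polynomial.coeff_zero j) hj
      · exact Polynomial.coeff_zero j
      · rw [Sh_zero]
        exact hR hr j hj
      rw [Sh_zero]
      have h2 : (0 : ℝ) ≤ j * w₀ := by positivity
      rw [min_eq_left (by linarith)]
      rcases h j with h1 | h1
      · exact h1
      · rw [Nat.cast_zero, zero_mul] at h1
        exact h1.ge.mono (by linarith)
    | succ n ih =>
      intro Ψ hR hW h
      obtain ⟨w₁, hw1, hge, hatt⟩ := exists_thr (v := v) hw0.le Ψ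
      have hw1W : w₁ ≤ W₁ := by
        rcases hw1.eq_or_lt with h0 | h0
        · rw [← h0]
          exact hW0
        · obtain ⟨j₀, hj₀w, hj₀', hjv⟩ := hatt h0
          have h1 := hW j₀ hj₀'
          rw [hjv] at h1
          rcases min_le_iff.1 h1 with h2 | h2
          · linarith
          · linarith
      by_cases hlt : w₁ < w₀
      · refine ⟨0, w₁, Polynomial.coeff_zero 0, hw1, hw1W, fun j hj => ?_, fun _ j _ _ => ?_,
          fun hr j hj => ?_, fun j => ?_, Or.inl hlt⟩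
        · exact absurd (Polynomial.coeff_zero j) hj
        · exact Polynomial.coeff_zero j
        · rw [Sh_zero]
          exact hR hr j hj
        rw [Sh_zero]
        exact hge j
      push Not at hlt
      obtain ⟨j₀, hj₀w, hj₀', hjv⟩ := hatt (hw0.trans_le hlt)
      by_cases hD : Dns k v ![w₀, w₁] y₀ (Tr w₀ w₁ Ψ)
      · refine ⟨0, w₁, Polynomial.coeff_zero 0, hw1, hw1W, fun j hj => ?_, fun _ j _ _ => ?_,
          fun hr j hj => ?_, fun j => ?_, Or.inr ⟨hlt, ⟨j₀, hj₀w, ?_, ?_⟩, ?_⟩⟩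
        · exact absurd (Polynomial.coeff_zero j) hj
        · exact Polynomial.coeff_zero j
        · rw [Sh_zero]
          exact hR hr j hj
        · rw [Sh_zero]
          exact hge j
        · rwa [Sh_zero]
        · rwa [Sh_zero]
        · rwa [Sh_zero]
      · unfold Dns at hD
        push Not at hD
        obtain ⟨d', hd, H, hiso, hinv, hH⟩ := hD
        obtain ⟨m, a, hm, hwm, h1⟩ := bad_of_inv p hk (w := ![w₀, w₁]) hw0 hlt hy0 hv
          (Ψ := Tr w₀ w₁ Ψ) (j₀ := j₀) (by rwa [coeff_Tr_lt hj₀w]) (by rwa [coeff_Tr_lt hj₀w]) hd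
          hH hiso hinv
        have hwm' : w₁ = m * w₀ := hwm
        have h1' : ∀ j : ℕ, Gt v (-((m : ℝ) * w₀ - j * w₀))
            ((Tr w₀ w₁ Ψ + Polynomial.C (algebraMap k Ω a) * Polynomial.X ^ m -
              Polynomial.C (algebraMap k Ω a) * (Polynomial.X + Polynomial.C y₀) ^ m).coeff j) := by
          intro j
          refine (h1 j).mono ?_
          change -((m : ℝ) * w₀ - j * w₀) ≤ -(w₁ - j * w₀)
          rw [hwm']
        have ha : a ≠ 0 := by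
          rintro rfl
          have h2 := h1 j₀
          rw [map_zero, map_zero, zero_mul, zero_mul, add_zero, sub_zero, coeff_Tr_lt hj₀w] at h2
          exact not_gt hj₀' hjv h2
        have hmp : R → m = 1 ∨ p ∣ m := fun hr =>
          dvd_of_bad p hk hy0 hv (fun j hj => by
            rw [coeff_Tr, hR hr j hj, ite_self]) ha h1'
        have hmn : m ≤ n := by
          have h2 : v (Ψ.coeff j₀) < 0 := by
            rw [hjv]
            linarith
          have h3 : Gt v (-(((n + 1 : ℕ) : ℝ) * w₀ - j₀ * w₀)) (Ψ.coeff j₀) := by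
            rcases h j₀ with h4 | h4
            · exact absurd (h4 hj₀') (not_le.2 h2)
            · exact h4
          have h4 := h3 hj₀'
          rw [hjv, hwm'] at h4
          have h5 : (m : ℝ) * w₀ < ((n + 1 : ℕ) : ℝ) * w₀ := by linarith
          have h6 : (m : ℝ) < ((n + 1 : ℕ) : ℝ) := lt_of_mul_lt_mul_right h5 hw0.le
          have h7 : m < n + 1 := by exact_mod_cast h6
          omega
        -- the coefficients of the next polynomial
        have hlow : ∀ j : ℕ, (j : ℝ) * w₀ < w₁ → Gt v (-((m : ℝ) * w₀ - j * w₀))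
            ((Sh y₀ (Polynomial.C a * Polynomial.X ^ m) Ψ).coeff j) := by
          intro j hj
          rw [Sh_mon]
          have h4 := h1' j
          rw [Polynomial.coeff_sub, Polynomial.coeff_add, coeff_Tr_lt hj] at h4
          rwa [Polynomial.coeff_sub, Polynomial.coeff_add]
        have hhigh : ∀ j : ℕ, w₁ ≤ (j : ℝ) * w₀ →
            (Sh y₀ (Polynomial.C a * Polynomial.X ^ m) Ψ).coeff j = Ψ.coeff j := by
          intro j hj
          have hmj : m ≤ j := by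
            rw [hwm'] at hj
            have h4 : (m : ℝ) ≤ j := le_of_mul_le_mul_right hj hw0
            exact_mod_cast h4
          rw [Sh_mon, Polynomial.coeff_sub, Polynomial.coeff_add, Polynomial.coeff_C_mul,
            Polynomial.coeff_C_mul, Polynomial.coeff_X_pow, Polynomial.coeff_X_add_C_pow]
          rcases hmj.eq_or_lt with rfl | h6
          · rw [if_pos rfl, Nat.sub_self, pow_zero, Nat.choose_self, Nat.cast_one]
            ring
          · rw [if_neg h6.ne', Nat.choose_eq_zero_of_lt h6, Nat.cast_zero]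
            ring
        obtain ⟨g, w', hg, hw', hw'W, hgW, hgp, hSp, h2, h3⟩ :=
            ih (Sh y₀ (Polynomial.C a * Polynomial.X ^ m) Ψ)
            (fun hr j hj => by
              rw [Sh_mon]
              exact coeff_step_zero p (hR hr) _ (hmp hr) j hj)
            (fun j => by
              by_cases hj : (j : ℝ) * w₀ < w₁
              · refine (hlow j hj).ge.mono ?_
                refine (min_le_right _ _).trans ?_
                rw [← hwm']
                linarith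
              · rw [hhigh j (not_lt.1 hj)]
                exact hW j)
            (fun j => by
              by_cases hj : (j : ℝ) * w₀ < w₁
              · right
                refine (hlow j hj).mono ?_
                have h5 : (m : ℝ) * w₀ ≤ n * w₀ :=
                  mul_le_mul_of_nonneg_right (by exact_mod_cast hmn) hw0.le
                linarith
              · left
                rw [hhigh j (not_lt.1 hj)]
                refine (hge j).mono ?_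
                push Not at hj
                rw [min_eq_left]
                linarith)
        rw [← Sh_add] at h3
        have hcf : ∀ j : ℕ, (Polynomial.C a * Polynomial.X ^ m + g).coeff j =
            (if j = m then a else 0) + g.coeff j := fun j => by
          rw [Polynomial.coeff_add, Polynomial.coeff_C_mul, Polynomial.coeff_X_pow, mul_ite,
            mul_one, mul_zero]
        refine ⟨Polynomial.C a * Polynomial.X ^ m + g, w', ?_, hw', hw'W, fun j hj => ?_,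
          fun hr j hj hj1 => ?_, fun hr j hj => ?_, fun j => ?_, h3⟩
        · rw [hcf, hg, if_neg (by omega), add_zero]
        · rw [hcf] at hj
          by_cases hjm : j = m
          · rw [hjm, ← hwm']
            exact hw1W
          · rw [if_neg hjm, zero_add] at hj
            exact hgW j hj
        · rw [hcf, hgp hr j hj hj1, add_zero, if_neg]
          rintro rfl
          rcases hmp hr with h4 | h4
          · exact hj1 h4
          · exact hj h4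
        · rw [Sh_add]
          exact hSp hr j hj
        · rw [Sh_add]
          exact h2 j
  obtain ⟨n, hn⟩ : ∃ n : ℕ, (∑ j ∈ Ψ.support, (|v (Ψ.coeff j)| + j * w₀)) / w₀ < n :=
    exists_nat_gt _
  refine key n Ψ hR hW fun j => Or.inr fun hj => ?_
  have h1 : |v (Ψ.coeff j)| + j * w₀ ≤ ∑ j ∈ Ψ.support, (|v (Ψ.coeff j)| + j * w₀) :=
    Finset.single_le_sum (f := fun j : ℕ => |v (Ψ.coeff j)| + j * w₀) (fun i _ => by positivity)
      (Polynomial.mem_support_iff.2 hj)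
  rw [div_lt_iff₀ hw0] at hn
  have h2 := neg_abs_le (v (Ψ.coeff j))
  linarith

theorem thr_le {w₀ w₁ B : ℝ} (hB : 0 ≤ B) {Ψ : Polynomial Ω} (hw1 : 0 ≤ w₁)
    (hatt : 0 < w₁ → ∃ j : ℕ, j * w₀ < w₁ ∧ Ψ.coeff j ≠ 0 ∧ v (Ψ.coeff j) = -(w₁ - j * w₀))
    (h : ∀ j : ℕ, v.Ge (min 0 (-(B - j * w₀))) (Ψ.coeff j)) : w₁ ≤ B := by
  rcases hw1.eq_or_lt with h2 | h2
  · rwa [← h2]
  · obtain ⟨j₀, hj₀w, hj₀', hjv⟩ := hatt h2
    have h1 := h j₀ hj₀'
    rw [hjv] at h1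
    rcases min_le_iff.1 h1 with h2 | h2
    · linarith
    · linarith

/-- **Good coordinates by truncation, with bounds**, in the words of `TWLG64`, with `w₀ = 0`.
`R` is `True` or `False`. -/
theorem exists_truncP (p : ℕ) [hp : Fact p.Prime] [CharP k p] [IsAlgClosed k]
    (hk : Ctx0 k v) {w₀ : ℝ} (hw0 : 0 ≤ w₀) {y₀ : Ω} (hy : 0 < w₀ → y₀ ≠ 0 ∧ v y₀ = - w₀)
    (hy' : w₀ = 0 → v.Ge 0 y₀) (R : Prop) (Ψ : Polynomial Ω)
    (hR : R → ∀ j : ℕ, ¬ p ∣ j → Ψ.coeff j = 0) :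
    ∃ (f : Polynomial k) (w₁ : ℝ), f.coeff 0 = 0 ∧ 0 ≤ w₁ ∧
      (∀ B : ℝ, 0 ≤ B → (∀ j : ℕ, v.Ge (min 0 (-(B - j * w₀))) (Ψ.coeff j)) →
        w₁ ≤ B ∧ ∀ j : ℕ, f.coeff j ≠ 0 → j * w₀ ≤ B) ∧
      (R → ∀ j : ℕ, ¬ p ∣ j → j ≠ 1 → f.coeff j = 0) ∧
      (R → ∀ j : ℕ, ¬ p ∣ j → (Sh y₀ f Ψ).coeff j = 0) ∧
      (w₀ = 0 → f = 0) ∧
      (∀ j : ℕ, v.Ge (min 0 (-(w₁ - j * w₀))) ((Sh y₀ f Ψ).coeff j)) ∧
      (w₁ < w₀ ∨ (w₀ = 0 ∧ w₁ = 0) ∨ (w₀ ≤ w₁ ∧ 0 < w₁ ∧
        (∃ j : ℕ, j * w₀ < w₁ ∧ (Sh y₀ f Ψ).coeff j ≠ 0 ∧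
          v ((Sh y₀ f Ψ).coeff j) = -(w₁ - j * w₀)) ∧
        TWLG64.Siz v ![w₀, w₁] ![y₀, 0] (Tr w₀ w₁ (Sh y₀ f Ψ)) ∧
        TWLG64.DnsL k v ![w₀, w₁] ![y₀, 0] (Tr w₀ w₁ (Sh y₀ f Ψ)))) := by
  have : CharP Ω p := charP_of_injective_algebraMap (algebraMap k Ω).injective p
  have hsiz : ∀ {w₁ : ℝ} {Ψ' : Polynomial Ω}, (∀ j : ℕ, v.Ge (min 0 (-(w₁ - j * w₀))) (Ψ'.coeff j)) →
      TWLG64.Siz v ![w₀, w₁] ![y₀, 0] (Tr w₀ w₁ Ψ') := by
    intro w₁ Ψ' h
    refine ⟨fun i => ?_, fun j => ?_⟩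
    · fin_cases i
      · rcases hw0.eq_or_lt with h0 | h0
        · have h1 := hy' h0.symm
          change v.Ge (-w₀) y₀
          rw [← h0, neg_zero]
          exact h1
        · intro _
          change - w₀ ≤ v y₀
          rw [(hy h0).2]
      · exact RVal.Ge.zero
    · refine (ge_Tr h j).mono ?_
      change (j : ℝ) * w₀ - w₁ ≤ -(w₁ - j * w₀)
      linarith
  obtain ⟨T, hT0, hTge, hTatt⟩ := exists_thr (v := v) hw0 Ψ
  rcases hw0.eq_or_lt with h0 | h0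
  · refine ⟨0, T, Polynomial.coeff_zero 0, hT0, fun B hB hB' => ⟨thr_le hB hT0 hTatt hB',
      fun j hj => ?_⟩, fun _ j _ _ => ?_, fun hr j hj => ?_, fun _ => rfl, fun j => ?_, ?_⟩
    · exact absurd (Polynomial.coeff_zero j) hj
    · exact Polynomial.coeff_zero j
    · rw [Sh_zero]
      exact hR hr j hj
    · rw [Sh_zero]
      exact hTge j
    rcases hT0.eq_or_lt with h1 | h1
    · exact Or.inr (Or.inl ⟨h0.symm, h1.symm⟩)
    · obtain ⟨j₀, hj₀w, hj₀', hjv⟩ := hTatt h1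
      refine Or.inr (Or.inr ⟨by rw [← h0]; exact hT0, h1, ⟨j₀, hj₀w, ?_, ?_⟩, ?_, ?_⟩)
      · rwa [Sh_zero]
      · rwa [Sh_zero]
      · rw [Sh_zero]
        exact hsiz hTge
      · rw [Sh_zero]
        have h2 : (Polynomial.C ((![y₀, 0] : Fin 2 → Ω) 1) + Tr w₀ T Ψ).coeff j₀ =
            Ψ.coeff j₀ := by
          change (Polynomial.C (0 : Ω) + Tr w₀ T Ψ).coeff j₀ = Ψ.coeff j₀
          rw [map_zero, zero_add, coeff_Tr_lt hj₀w]
        refine TWLG64.dnsL_zero p hk (w := ![w₀, T]) h0.symm h1 (hsiz hTge) (j₀ := j₀) ?_ ?_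
        · rw [h2]
          exact hj₀'
        · rw [h2, hjv, ← h0, mul_zero, sub_zero]
          rfl
  · obtain ⟨f, w₁, h1, h2, h2', h3, h4, h5, h6, h7⟩ :=
      exists_trunc_gen p hk h0 (hy h0).1 (hy h0).2 R Ψ hR hT0 hTge
    refine ⟨f, w₁, h1, h2, fun B hB hB' => ⟨h2'.trans (thr_le hB hT0 hTatt hB'),
      fun j hj => (h3 j hj).trans (thr_le hB hT0 hTatt hB')⟩, h4, h5, fun h => absurd h h0.ne',
      h6, ?_⟩
    rcases h7 with h7 | ⟨h7, h8, h9⟩
    · exact Or.inl h7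
    · refine Or.inr (Or.inr ⟨h7, h0.trans_le h7, h8, hsiz h6, ?_⟩)
      refine TWLG64.dnsL_of_dns hk (w := ![w₀, w₁]) h0 (h0.trans_le h7) (hsiz h6)
        (fun i hi => ?_) ?_
      · have h11 : (Tr w₀ w₁ (Sh y₀ f Ψ)).coeff i = 0 := coeff_Tr_ge (by simpa using hi)
        rw [h11]
        exact Gt.zero
      · rw [dns_iff]
        simpa using h9

end Pool.Agent.TWLG76
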