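import Mathlib
import Pool.Agent.Lib.TWLY.C

/-!
# CT, j = 1: good coordinates

`γ g = (y₀ + s, c + Ψ(s))`, weights `w 0 = |y₀|` and `w 1`, `|Ψ_j| ≤ w 1 - j w 0`.
* `LL y₀ Ψ N = N(γ g)`;
* `Dns v w y₀ Ψ`: an isobaric polynomial of positive weight is not invariant under the translation
  by the top part of `γ`;
* `bad_of_inv`: if `w 1` is attained and `Dns` fails, then `w 1 = m w 0` and `Ψ` is near to
  `a ((s + y₀) ^ m - s ^ m)`, `a ∈ k`;
* `exists_good`: after a change of coordinates `c ↦ c - f(s)`: `w 1 < w 0`, or `w 1` is attained and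
  `Dns`;
* `dns_zero`: the case `w 0 = 0`.
-/

set_option autoImplicit false

namespace Pool.Agent.TWLG76

open MvPolynomial
open Pool.Agent.H15JM (RVal)
open Pool.Agent.LU1 (VPos)
open Pool.Agent.D2 (Ctx0)
open Pool.Agent.TWM (Gt)
open Pool.Agent.TWLY (Ex mk mk_zero' mk_one' ex_ext mk_eta mk_eq_iff wt)

/-! ### Binomials and powers -/

section bin

variable {R : Type*} [CommRing R] {p : ℕ} [hp : Fact p.Prime] [CharP R p]

theorem coeff_pow_char (f : Polynomial R) (e j : ℕ) :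
    (f ^ p ^ e).coeff j = if p ^ e ∣ j then f.coeff (j / p ^ e) ^ p ^ e else 0 := by
  have : ExpChar R p := ExpChar.prime hp.out
  rw [← Polynomial.map_iterateFrobenius_expand p f e, Polynomial.coeff_map,
    Polynomial.coeff_expand (pow_pos hp.out.pos e)]
  split_ifs with h
  · rw [iterateFrobenius_def]
  · rw [map_zero]

theorem coeff_pow_char_mul (f : Polynomial R) (e j : ℕ) :
    (f ^ p ^ e).coeff (p ^ e * j) = f.coeff j ^ p ^ e := by
  rw [coeff_pow_char, if_pos (Dvd.intro _ rfl), Nat.mul_div_cancel_left _ (pow_pos hp.out.pos e)]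

theorem choose_cast (e n r : ℕ) :
    (((p ^ e * n).choose r : ℕ) : R) = if p ^ e ∣ r then ((n.choose (r / p ^ e) : ℕ) : R) else 0 := by
  have : ExpChar R p := ExpChar.prime hp.out
  have h1 : (Polynomial.X + 1 : Polynomial R) ^ (p ^ e * n) =
      Polynomial.expand R (p ^ e) ((Polynomial.X + 1) ^ n) := by
    rw [pow_mul, add_pow_expChar_pow, one_pow, map_pow, map_add, Polynomial.expand_X, map_one]
  rw [← Polynomial.coeff_X_add_one_pow, h1, Polynomial.coeff_expand (pow_pos hp.out.pos e),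
    Polynomial.coeff_X_add_one_pow]

theorem choose_cast_zero {e n r : ℕ} (h : ¬ p ^ e ∣ r) : (((p ^ e * n).choose r : ℕ) : R) = 0 := by
  rw [choose_cast, if_neg h]

theorem choose_cast_one (e n : ℕ) : (((p ^ e * n).choose (p ^ e) : ℕ) : R) = n := by
  rw [choose_cast, if_pos dvd_rfl, Nat.div_self (pow_pos hp.out.pos e), Nat.choose_one_right]

end bin

/-! ### The translate -/

section LL

variable {k Ω : Type*} [Field k] [Field Ω] [Algebra k Ω]

/-- `N(γ g)`, `γ g = (y₀ + s, c + Ψ(s))`. -/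
noncomputable def LL (y₀ : Ω) (Ψ : Polynomial Ω) :
    MvPolynomial (Fin 2) k →ₐ[k] MvPolynomial (Fin 2) Ω :=
  aeval ![X 0 + C y₀, X 1 + Polynomial.aeval (X 0) Ψ]

theorem coeff_aeval_mul (f : Polynomial Ω) (b j a : ℕ) :
    coeff (mk j a) (Polynomial.aeval (X 0 : MvPolynomial (Fin 2) Ω) f * X 1 ^ b) =
      if a = b then f.coeff j else 0 := by
  classical
  induction f using Polynomial.induction_on' with
  | add f g hf hg =>
    rw [map_add, add_mul, coeff_add, hf, hg, Polynomial.coeff_add]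
    split_ifs
    · rfl
    · rw [add_zero]
  | monomial n c =>
    have h1 : Polynomial.aeval (X 0 : MvPolynomial (Fin 2) Ω) (Polynomial.monomial n c) *
        X 1 ^ b = monomial (mk n b) c := by
      rw [Polynomial.aeval_monomial, mul_assoc, ← C_mul_X_pow_eq_monomial_mk]
      rfl
    rw [h1, coeff_monomial, Polynomial.coeff_monomial]
    by_cases hab : a = b
    · rw [if_pos hab]
      by_cases hnj : n = j
      · rw [if_pos hnj, if_pos (by rw [mk_eq_iff]; simp [hnj, hab])]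
      · rw [if_neg hnj, if_neg (by rw [mk_eq_iff]; simp [hnj])]
    · rw [if_neg hab, if_neg (by rw [mk_eq_iff]; simp [Ne.symm hab])]
where
  C_mul_X_pow_eq_monomial_mk : ∀ {n b : ℕ} {c : Ω},
      (C c * (X 0 ^ n * X 1 ^ b) : MvPolynomial (Fin 2) Ω) = monomial (mk n b) c := by
    intro n b c
    rw [X_pow_eq_monomial, X_pow_eq_monomial, monomial_mul, C_mul_monomial]
    simp [mk]

theorem coeff_LL_mon (y₀ : Ω) (Ψ : Polynomial Ω) (m : Ex) (j a : ℕ) :
    coeff (mk j a) (LL y₀ Ψ (monomial m (1 : k))) =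
      ((m 1).choose a : Ω) *
        ((Polynomial.X + Polynomial.C y₀) ^ m 0 * Ψ ^ (m 1 - a)).coeff j := by
  classical
  have h1 : LL y₀ Ψ (monomial m (1 : k)) = ∑ b ∈ Finset.range (m 1 + 1),
      ((m 1).choose b : Ω) • (Polynomial.aeval (X 0 : MvPolynomial (Fin 2) Ω)
        ((Polynomial.X + Polynomial.C y₀) ^ m 0 * Ψ ^ (m 1 - b)) * X 1 ^ b) := by
    rw [LL, aeval_monomial, map_one, one_mul, Finsupp.prod_fintype _ _ (fun i => pow_zero _),
      Fin.prod_univ_two]
    simp only [Matrix.cons_val_zero, Matrix.cons_val_one]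
    rw [add_pow (X 1 : MvPolynomial (Fin 2) Ω), Finset.mul_sum]
    refine Finset.sum_congr rfl fun b _ => ?_
    rw [map_mul, map_pow, map_pow, map_add, Polynomial.aeval_X, Polynomial.aeval_C,
      algebraMap_eq, smul_eq_C_mul, map_natCast]
    ring
  rw [h1, coeff_sum]
  by_cases ha : a ∈ Finset.range (m 1 + 1)
  · rw [Finset.sum_eq_single_of_mem a ha, coeff_smul, smul_eq_mul, coeff_aeval_mul, if_pos rfl]
    intro b _ hb
    rw [coeff_smul, coeff_aeval_mul, if_neg (Ne.symm hb), smul_zero]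
  · rw [Finset.mem_range, not_lt] at ha
    rw [Nat.choose_eq_zero_of_lt (by omega), Nat.cast_zero, zero_mul]
    refine Finset.sum_eq_zero fun b hb => ?_
    rw [Finset.mem_range] at hb
    rw [coeff_smul, coeff_aeval_mul, if_neg (by omega), smul_zero]

theorem coeff_LL (y₀ : Ω) (Ψ : Polynomial Ω) (H : MvPolynomial (Fin 2) k) (j a : ℕ) :
    coeff (mk j a) (LL y₀ Ψ H) = ∑ m ∈ H.support, algebraMap k Ω (coeff m H) *
      (((m 1).choose a : Ω) *
        ((Polynomial.X + Polynomial.C y₀) ^ m 0 * Ψ ^ (m 1 - a)).coeff j) := by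
  conv_lhs => rw [H.as_sum, map_sum, coeff_sum]
  refine Finset.sum_congr rfl fun m _ => ?_
  rw [← coeff_LL_mon (k := k)]
  have h1 : (monomial m (coeff m H) : MvPolynomial (Fin 2) k) =
      coeff m H • monomial m (1 : k) := by
    rw [smul_monomial, smul_eq_mul, mul_one]
  rw [h1, map_smul, Algebra.smul_def, IsScalarTower.algebraMap_apply k Ω (MvPolynomial (Fin 2) Ω),
    algebraMap_eq, coeff_C_mul]

end LL

/-! ### The alternative -/

section bad

universe u

variable {k Ω : Type u} [Field k] [Field Ω] [Algebra k Ω] {v : RVal Ω}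

/-- an element of value `r` is not of value `> r`. -/
theorem not_gt {x : Ω} {r : ℝ} (hx : x ≠ 0) (h : v x = r) : ¬ Gt v r x := fun h1 => by
  have h2 := h1 hx
  rw [h] at h2
  exact lt_irrefl _ h2

theorem iso_inj {w : Fin 2 → ℝ} (hw0 : 0 < w 0) {d' : ℝ} {H : MvPolynomial (Fin 2) k}
    (hiso : ∀ m ∈ H.support, wt w m = d') {m m' : Ex} (hm : m ∈ H.support)
    (hm' : m' ∈ H.support) (h : m 1 = m' 1) : m = m' := by
  refine ex_ext ?_ h
  have h1 := hiso m hm
  rw [← hiso m' hm', wt, wt, h] at h1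
  have h2 : (m 0 : ℝ) * w 0 = m' 0 * w 0 := by linarith
  have h3 := mul_right_cancel₀ hw0.ne' h2
  exact_mod_cast h3

theorem wt_mk (w : Fin 2 → ℝ) (a b : ℕ) : wt w (mk a b) = a * w 0 + b * w 1 := by
  rw [wt, mk_zero', mk_one']

/-- **The alternative**: if the polynomial `H` is invariant, the coordinates are bad. -/
theorem bad_of_inv (p : ℕ) [hp : Fact p.Prime] [CharP k p] [CharP Ω p] [IsAlgClosed k] (hk : Ctx0 k v) {w : Fin 2 → ℝ} (hw0 : 0 < w 0) (hw : w 0 ≤ w 1) {y₀ : Ω}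
    (hy0 : y₀ ≠ 0) (hv : v y₀ = - w 0) {Ψ : Polynomial Ω} {j₀ : ℕ} (hj0 : Ψ.coeff j₀ ≠ 0)
    (hjv : v (Ψ.coeff j₀) = -(w 1 - j₀ * w 0)) {d' : ℝ} (hd : 0 < d')
    {H : MvPolynomial (Fin 2) k} (hH : H ≠ 0) (hiso : ∀ m ∈ H.support, wt w m = d')
    (hinv : ∀ be, Gt v (wt w be - d')
      (coeff be (LL y₀ Ψ H - MvPolynomial.map (algebraMap k Ω) H))) :
    ∃ (m : ℕ) (a : k), 0 < m ∧ w 1 = m * w 0 ∧ ∀ j : ℕ, Gt v (-(w 1 - j * w 0))
      ((Ψ + Polynomial.C (algebraMap k Ω a) * Polynomial.X ^ m -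
        Polynomial.C (algebraMap k Ω a) * (Polynomial.X + Polynomial.C y₀) ^ m).coeff j) := by
  classical
  have hp0 : 0 < p := hp.out.pos
  have hp1 : 1 < p := hp.out.one_lt
  have hw1 : 0 < w 1 := hw0.trans_le hw
  have halg : ∀ {c : k}, c ≠ 0 → algebraMap k Ω c ≠ 0 := fun hc => by
    rw [Ne, map_eq_zero]
    exact hc
  have hy0p : ∀ n : ℕ, y₀ ^ n ≠ 0 := fun n => pow_ne_zero n hy0
  have hvp : ∀ n : ℕ, v (y₀ ^ n) = - (n * w 0) := fun n => by
    rw [v.map_pow hy0, hv]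
    ring
  have hinv' : ∀ j a : ℕ, Gt v (j * w 0 + a * w 1 - d')
      (coeff (mk j a) (LL y₀ Ψ H) - algebraMap k Ω (coeff (mk j a) H)) := by
    intro j a
    have h1 := hinv (mk j a)
    rwa [coeff_sub, coeff_map, wt_mk] at h1
  obtain ⟨M, hM, hMmax⟩ := Finset.exists_max_image H.support (fun m => m 1)
    (support_nonempty.2 hH)
  have hMc : coeff M H ≠ 0 := mem_support_iff.1 hM
  have hinj := fun {m m' : Ex} (hm : m ∈ H.support) (hm' : m' ∈ H.support) (h : m 1 = m' 1) =>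
    iso_inj hw0 hiso hm hm' h
  -- step 1
  have hM0 : M 0 = 0 := by
    by_contra h0
    have h1 : coeff (mk 0 (M 1)) H = 0 := by
      by_contra h2
      have h3 := hinj (mem_support_iff.2 h2) hM (by rw [mk_one'])
      apply h0
      rw [← h3, mk_zero']
    have h2 := hinv' 0 (M 1)
    rw [h1, map_zero, sub_zero, coeff_LL, Finset.sum_eq_single_of_mem M hM] at h2
    · rw [Nat.choose_self, Nat.cast_one, one_mul, Nat.sub_self, pow_zero, mul_one,
        Polynomial.coeff_X_add_C_pow, Nat.choose_zero_right, Nat.cast_one, mul_one,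
        Nat.sub_zero] at h2
      refine not_gt (mul_ne_zero (halg hMc) (hy0p _)) ?_ h2
      rw [v.map_mul (halg hMc) (hy0p _), hk.triv _ hMc, hvp, ← hiso M hM, wt]
      push_cast
      ring
    · intro m hm hmM
      have h3 : m 1 < M 1 := lt_of_le_of_ne (hMmax m hm) fun h => hmM (hinj hm hM h)
      rw [Nat.choose_eq_zero_of_lt h3, Nat.cast_zero, zero_mul, mul_zero]
  have hMd : (M 1 : ℝ) * w 1 = d' := by
    have h1 := hiso M hM
    rw [wt, hM0] at h1
    push_cast at h1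
    linarith
  have hl0 : M 1 ≠ 0 := by
    intro h
    rw [h, Nat.cast_zero, zero_mul] at hMd
    exact hd.ne hMd
  -- step 2
  obtain ⟨e, n, hn, hln⟩ := Nat.exists_eq_pow_mul_and_not_dvd hl0 p hp.out.ne_one
  have hnk : (n : k) ≠ 0 := by
    rw [Ne, CharP.cast_eq_zero_iff k p]
    exact hn
  have hpe : 0 < p ^ e := pow_pos hp0 e
  have hn0 : 0 < n := Nat.pos_of_ne_zero fun h => hn (by rw [h]; exact dvd_zero p)
  have hpel : p ^ e ≤ M 1 := by
    rw [hln]
    exact Nat.le_mul_of_pos_right _ hn0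
  have hgap : ∀ m ∈ H.support, m ≠ M → m 1 + p ^ e ≤ M 1 := by
    by_contra hcon
    push Not at hcon
    obtain ⟨m₀, hm₀, hm₀M, hm₀l⟩ := hcon
    obtain ⟨m, hmS, hmmax⟩ := Finset.exists_max_image
      (H.support.filter fun m => m ≠ M ∧ M 1 < m 1 + p ^ e) (fun m => m 1)
      ⟨m₀, Finset.mem_filter.2 ⟨hm₀, hm₀M, hm₀l⟩⟩
    obtain ⟨hm, hmM, hml⟩ := Finset.mem_filter.1 hmS
    have hmlt : m 1 < M 1 := lt_of_le_of_ne (hMmax m hm) fun h => hmM (hinj hm hM h)
    have hmc : coeff m H ≠ 0 := mem_support_iff.1 hm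
    have h1 : coeff (mk 0 (m 1)) H = 0 := by
      by_contra h2
      have h3 := hiso _ (mem_support_iff.2 h2)
      rw [wt_mk, ← hMd] at h3
      have h4 : (m 1 : ℝ) < M 1 := by exact_mod_cast hmlt
      have h5 := mul_lt_mul_of_pos_right h4 hw1
      push_cast at h3
      linarith
    have h2 := hinv' 0 (m 1)
    rw [h1, map_zero, sub_zero, coeff_LL, Finset.sum_eq_single_of_mem m hm] at h2
    · rw [Nat.choose_self, Nat.cast_one, one_mul, Nat.sub_self, pow_zero, mul_one,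
        Polynomial.coeff_X_add_C_pow, Nat.choose_zero_right, Nat.cast_one, mul_one,
        Nat.sub_zero] at h2
      refine not_gt (mul_ne_zero (halg hmc) (hy0p _)) ?_ h2
      rw [v.map_mul (halg hmc) (hy0p _), hk.triv _ hmc, hvp, ← hiso m hm, wt]
      push_cast
      ring
    · intro m' hm' hmm'
      by_cases hmM' : m' = M
      · have h3 : (((m' 1).choose (m 1) : ℕ) : Ω) = 0 := by
          rw [hmM', ← Nat.choose_symm (by omega), hln]
          refine choose_cast_zero (p := p) fun h4 => ?_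
          have h5 := Nat.le_of_dvd (by omega) h4
          omega
        rw [h3, zero_mul, mul_zero]
      · rcases lt_trichotomy (m' 1) (m 1) with h3 | h3 | h3
        · rw [Nat.choose_eq_zero_of_lt h3, Nat.cast_zero, zero_mul, mul_zero]
        · exact absurd (hinj hm' hm h3) hmm'
        · have h4 := hmmax m' (Finset.mem_filter.2 ⟨hm', hmM', by omega⟩)
          exact absurd h4 (not_le.2 h3)
  -- step 3
  set l := M 1 - p ^ e with hl
  have hlp : l + p ^ e = M 1 := by omega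
  obtain ⟨i, hi⟩ : ∃ i : ℕ, ∀ m ∈ H.support, m 1 = l → m = mk i l := by
    by_cases h : ∃ m ∈ H.support, m 1 = l
    · obtain ⟨m, hm, hml⟩ := h
      refine ⟨m 0, fun m' hm' hml' => ?_⟩
      rw [hinj hm' hm (by rw [hml, hml']), ← hml, mk_eta]
    · exact ⟨0, fun m hm hml => absurd ⟨m, hm, hml⟩ h⟩
  have hcoef : ∀ j, coeff (mk j l) (LL y₀ Ψ H) =
      algebraMap k Ω (coeff M H) * (n * (Ψ ^ p ^ e).coeff j) +
        algebraMap k Ω (coeff (mk i l) H) * (y₀ ^ (i - j) * (i.choose j : Ω)) := by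
    intro j
    have hne : M ≠ mk i l := fun h => by
      have h1 := congrArg (fun m : Ex => m 1) h
      simp only [mk_one'] at h1
      omega
    have e1 : M 1 - l = p ^ e := by omega
    have e2 : (((M 1).choose l : ℕ) : Ω) = n := by
      rw [hl, Nat.choose_symm hpel, hln]
      exact choose_cast_one (R := Ω) (p := p) e n
    rw [coeff_LL, Finset.sum_eq_add M (mk i l) hne]
    · rw [hM0, pow_zero, one_mul, e1, e2, mk_one', mk_zero', Nat.choose_self, Nat.cast_one,
        one_mul, Nat.sub_self, pow_zero, mul_one, Polynomial.coeff_X_add_C_pow]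
    · rintro m hm ⟨hm1, hm2⟩
      have h1 := hgap m hm hm1
      have h2 : m 1 < l := lt_of_le_of_ne (by omega) fun h => hm2 (hi m hm h)
      rw [Nat.choose_eq_zero_of_lt h2, Nat.cast_zero, zero_mul, mul_zero]
    · exact fun h => absurd hM h
    · intro h
      rw [notMem_support_iff.1 h, map_zero, zero_mul]
  have hne : ∀ j, j ≠ i → coeff (mk j l) H = 0 := by
    intro j hj
    by_contra h
    have h1 := hi _ (mem_support_iff.2 h) (mk_one' _ _)
    have h2 := congrArg (fun m : Ex => m 0) h1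
    simp only [mk_zero'] at h2
    exact hj h2
  have hthr : ∀ j : ℕ, (j : ℝ) * w 0 + (l : ℝ) * w 1 - d' = -((p : ℝ) ^ e * w 1 - j * w 0) := by
    intro j
    rw [← hMd, ← hlp]
    push_cast
    ring
  have hnΩ : (n : Ω) ≠ 0 := by
    rw [← map_natCast (algebraMap k Ω)]
    exact halg hnk
  have hvn : v (n : Ω) = 0 := by
    rw [← map_natCast (algebraMap k Ω)]
    exact hk.triv _ hnk
  have hcast : ((p ^ e : ℕ) : ℝ) = (p : ℝ) ^ e := by push_cast; ring
  -- step 4
  have hic : coeff (mk i l) H ≠ 0 := by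
    intro h0
    have h1 := hinv' (p ^ e * j₀) l
    have h2 : coeff (mk (p ^ e * j₀) l) H = 0 := by
      by_cases h : p ^ e * j₀ = i
      · rw [h, h0]
      · exact hne _ h
    rw [h2, map_zero, sub_zero, hcoef, h0, map_zero, zero_mul, add_zero,
      coeff_pow_char_mul (p := p), hthr] at h1
    refine not_gt (mul_ne_zero (halg hMc) (mul_ne_zero hnΩ (pow_ne_zero _ hj0))) ?_ h1
    rw [v.map_mul (halg hMc) (mul_ne_zero hnΩ (pow_ne_zero _ hj0)), hk.triv _ hMc,
      v.map_mul hnΩ (pow_ne_zero _ hj0), hvn, v.map_pow hj0, hjv]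
    push_cast
    ring
  have hiS : mk i l ∈ H.support := mem_support_iff.2 hic
  have hiw : (i : ℝ) * w 0 = (p : ℝ) ^ e * w 1 := by
    have h1 := hiso _ hiS
    rw [wt_mk, ← hMd, ← hlp] at h1
    push_cast at h1
    linarith
  -- step 5
  have hbin : ∀ j, j < i → ¬ p ^ e ∣ j → ((i.choose j : ℕ) : k) = 0 := by
    intro j hj hdv
    by_contra h0
    have h1 := hinv' j l
    rw [hne j hj.ne, map_zero, sub_zero, hcoef, coeff_pow_char, if_neg hdv, mul_zero, mul_zero,
      zero_add, hthr, ← map_natCast (algebraMap k Ω)] at h1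
    refine not_gt (mul_ne_zero (halg hic) (mul_ne_zero (hy0p _) (halg h0))) ?_ h1
    rw [v.map_mul (halg hic) (mul_ne_zero (hy0p _) (halg h0)), hk.triv _ hic,
      v.map_mul (hy0p _) (halg h0), hk.triv _ h0, hvp, ← hiw, Nat.cast_sub hj.le]
    ring
  -- step 6
  have hile : p ^ e ≤ i := by
    have h1 : ((p : ℝ) ^ e) * w 0 ≤ (i : ℝ) * w 0 := by
      rw [hiw]
      exact mul_le_mul_of_nonneg_left hw (by positivity)
    have h2 := le_of_mul_le_mul_right h1 hw0
    rw [← hcast] at h2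
    exact_mod_cast h2
  have hi0 : i ≠ 0 := by omega
  have hdvi : p ^ e ∣ i := by
    obtain ⟨f, n', hn', hi'⟩ := Nat.exists_eq_pow_mul_and_not_dvd hi0 p hp.out.ne_one
    by_cases hfe : e ≤ f
    · rw [hi']
      exact Dvd.dvd.mul_right (pow_dvd_pow p hfe) n'
    · exfalso
      push Not at hfe
      have h1 : p ^ f < p ^ e := Nat.pow_lt_pow_right hp1 hfe
      have h2 : ¬ p ^ e ∣ p ^ f := fun h => by
        have := Nat.le_of_dvd (pow_pos hp0 f) h
        omega
      have h3 := hbin (p ^ f) (by omega) h2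
      rw [hi', choose_cast_one (R := k) (p := p)] at h3
      rw [CharP.cast_eq_zero_iff k p] at h3
      exact hn' h3
  -- step 7
  obtain ⟨m, hm⟩ := hdvi
  have hwm : w 1 = m * w 0 := by
    have h1 : (p : ℝ) ^ e ≠ 0 := by
      rw [← hcast]
      exact_mod_cast hpe.ne'
    apply mul_left_cancel₀ h1
    rw [← hiw, hm]
    push_cast
    ring
  have hm0 : 0 < m := Nat.pos_of_ne_zero fun h => hi0 (by rw [hm, h, mul_zero])
  obtain ⟨a, ha⟩ := IsAlgClosed.exists_pow_nat_eq
    (-(coeff (mk i l) H / (coeff M H * (n : k)))) hpe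
  have hMn : coeff M H * (n : k) ≠ 0 := mul_ne_zero hMc hnk
  have ha' : algebraMap k Ω (coeff (mk i l) H) =
      - (algebraMap k Ω (coeff M H * (n : k)) * algebraMap k Ω a ^ p ^ e) := by
    rw [← map_pow, ha, ← map_mul, ← map_neg]
    congr 1
    field_simp
  refine ⟨m, a, hm0, hwm, fun j => ?_⟩
  set A := algebraMap k Ω a with hA
  have hB : ∀ j, y₀ ^ (i - p ^ e * j) * ((i.choose (p ^ e * j) : ℕ) : Ω) =
      ((Polynomial.X + Polynomial.C y₀) ^ m).coeff j ^ p ^ e := by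
    intro j
    rw [← Polynomial.coeff_X_add_C_pow, hm, mul_comm (p ^ e) m, pow_mul,
      coeff_pow_char_mul (p := p)]
  have hZ : ((Ψ + Polynomial.C A * Polynomial.X ^ m -
        Polynomial.C A * (Polynomial.X + Polynomial.C y₀) ^ m).coeff j) =
      Ψ.coeff j + A * (if j = m then 1 else 0) -
        A * ((Polynomial.X + Polynomial.C y₀) ^ m).coeff j := by
    rw [Polynomial.coeff_sub, Polynomial.coeff_add, Polynomial.coeff_C_mul,
      Polynomial.coeff_C_mul, Polynomial.coeff_X_pow]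
  set Z := ((Ψ + Polynomial.C A * Polynomial.X ^ m -
        Polynomial.C A * (Polynomial.X + Polynomial.C y₀) ^ m).coeff j) with hZd
  have : ExpChar Ω p := ExpChar.prime hp.out
  have hij : coeff (mk (p ^ e * j) l) H = if j = m then coeff (mk i l) H else 0 := by
    split_ifs with h
    · rw [h, hm]
    · refine hne _ fun h1 => h ?_
      rw [hm] at h1
      exact Nat.eq_of_mul_eq_mul_left hpe h1
  have hkey : coeff (mk (p ^ e * j) l) (LL y₀ Ψ H) -
      algebraMap k Ω (coeff (mk (p ^ e * j) l) H) =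
      algebraMap k Ω (coeff M H * (n : k)) * Z ^ p ^ e := by
    rw [hZ, sub_pow_expChar_pow, add_pow_expChar_pow, hcoef, hB, hij, coeff_pow_char_mul (p := p),
      ha', mul_pow, mul_pow, map_mul, map_natCast]
    split_ifs with h
    · rw [ha', map_mul, map_natCast, one_pow]
      ring
    · rw [map_zero, zero_pow hpe.ne']
      ring
  have h1 := hinv' (p ^ e * j) l
  rw [hkey, hthr] at h1
  intro hZ0
  have h2 := h1 (mul_ne_zero (halg hMn) (pow_ne_zero _ hZ0))
  rw [v.map_mul (halg hMn) (pow_ne_zero _ hZ0), hk.triv _ hMn, v.map_pow hZ0, zero_add] at h2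
  have h3 : (0 : ℝ) < (p : ℝ) ^ e := by
    rw [← hcast]
    exact_mod_cast hpe
  push_cast at h2
  have h4 : (p : ℝ) ^ e * (-(w 1 - j * w 0)) < (p : ℝ) ^ e * v Z := by
    linarith
  exact lt_of_mul_lt_mul_left h4 h3.le

end bad

/-! ### Good coordinates -/

section good

universe u

variable {k Ω : Type u} [Field k] [Field Ω] [Algebra k Ω] {v : RVal Ω}

/-- An isobaric polynomial of positive weight is not invariant under the top part of `γ`. -/
def Dns (k : Type*) {Ω : Type*} [Field k] [Field Ω] [Algebra k Ω] (v : RVal Ω) (w : Fin 2 → ℝ)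
    (y₀ : Ω) (Ψ : Polynomial Ω) : Prop :=
  ∀ d' : ℝ, 0 < d' → ∀ H : MvPolynomial (Fin 2) k, (∀ m ∈ H.support, wt w m = d') →
    (∀ be, Gt v (wt w be - d')
      (coeff be (LL y₀ Ψ H - MvPolynomial.map (algebraMap k Ω) H))) → H = 0

/-- The change of coordinates `c ↦ c - f(s)`. -/
noncomputable def Sh (y₀ : Ω) (f : Polynomial k) (Ψ : Polynomial Ω) : Polynomial Ω :=
  Ψ + f.map (algebraMap k Ω) - (f.map (algebraMap k Ω)).comp (Polynomial.X + Polynomial.C y₀)

theorem Sh_zero (y₀ : Ω) (Ψ : Polynomial Ω) : Sh y₀ (0 : Polynomial k) Ψ = Ψ := by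
  rw [Sh, Polynomial.map_zero, Polynomial.zero_comp, add_zero, sub_zero]

theorem Sh_add (y₀ : Ω) (f g : Polynomial k) (Ψ : Polynomial Ω) :
    Sh y₀ (f + g) Ψ = Sh y₀ g (Sh y₀ f Ψ) := by
  simp only [Sh, Polynomial.map_add, Polynomial.add_comp]
  ring

theorem Sh_mon (y₀ : Ω) (a : k) (m : ℕ) (Ψ : Polynomial Ω) :
    Sh y₀ (Polynomial.C a * Polynomial.X ^ m) Ψ =
      Ψ + Polynomial.C (algebraMap k Ω a) * Polynomial.X ^ m -
        Polynomial.C (algebraMap k Ω a) * (Polynomial.X + Polynomial.C y₀) ^ m := by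
  simp only [Sh, Polynomial.map_mul, Polynomial.map_pow, Polynomial.map_C, Polynomial.map_X,
    Polynomial.mul_comp, Polynomial.C_comp, Polynomial.X_pow_comp]

/-- **Good coordinates.** -/
theorem exists_good (p : ℕ) [hp : Fact p.Prime] [CharP k p] [CharP Ω p] [IsAlgClosed k]
    (hk : Ctx0 k v) {w₀ : ℝ} (hw0 : 0 < w₀) {y₀ : Ω} (hy0 : y₀ ≠ 0) (hv : v y₀ = - w₀)
    (Ψ : Polynomial Ω) :
    ∃ (f : Polynomial k) (w₁ : ℝ), f.coeff 0 = 0 ∧
      (∀ j : ℕ, v.Ge (-(w₁ - j * w₀)) ((Sh y₀ f Ψ).coeff j)) ∧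
      (w₁ < w₀ ∨ (w₀ ≤ w₁ ∧ (∃ j : ℕ, (Sh y₀ f Ψ).coeff j ≠ 0 ∧
        v ((Sh y₀ f Ψ).coeff j) = -(w₁ - j * w₀)) ∧ Dns k v ![w₀, w₁] y₀ (Sh y₀ f Ψ))) := by
  classical
  have key : ∀ (n : ℕ) (Ψ : Polynomial Ω),
      (∀ j : ℕ, Gt v (-(n * w₀ - j * w₀)) (Ψ.coeff j)) →
      ∃ (f : Polynomial k) (w₁ : ℝ), f.coeff 0 = 0 ∧
      (∀ j : ℕ, v.Ge (-(w₁ - j * w₀)) ((Sh y₀ f Ψ).coeff j)) ∧
      (w₁ < w₀ ∨ (w₀ ≤ w₁ ∧ (∃ j : ℕ, (Sh y₀ f Ψ).coeff j ≠ 0 ∧
        v ((Sh y₀ f Ψ).coeff j) = -(w₁ - j * w₀)) ∧ Dns k v ![w₀, w₁] y₀ (Sh y₀ f Ψ))) := by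
    intro n
    induction n with
    | zero =>
      intro Ψ h
      refine ⟨0, 0, Polynomial.coeff_zero 0, fun j => ?_, Or.inl hw0⟩
      rw [Sh_zero]
      have h1 := (h j).ge
      rwa [Nat.cast_zero, zero_mul] at h1
    | succ n ih =>
      intro Ψ h
      by_cases hΨ : Ψ = 0
      · refine ⟨0, 0, Polynomial.coeff_zero 0, fun j => ?_, Or.inl hw0⟩
        rw [Sh_zero, hΨ, Polynomial.coeff_zero]
        exact RVal.Ge.zero
      obtain ⟨j₀, hj₀, hmax⟩ := Finset.exists_max_image Ψ.support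
        (fun j => - v (Ψ.coeff j) + j * w₀) (Polynomial.support_nonempty.2 hΨ)
      have hj₀' : Ψ.coeff j₀ ≠ 0 := Polynomial.mem_support_iff.1 hj₀
      set w₁ := - v (Ψ.coeff j₀) + j₀ * w₀ with hw₁
      have hge : ∀ j : ℕ, v.Ge (-(w₁ - j * w₀)) (Ψ.coeff j) := by
        intro j hj
        have h1 := hmax j (Polynomial.mem_support_iff.2 hj)
        linarith
      have hatt : v (Ψ.coeff j₀) = -(w₁ - j₀ * w₀) := by
        rw [hw₁]
        ring
      by_cases hlt : w₁ < w₀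
      · refine ⟨0, w₁, Polynomial.coeff_zero 0, fun j => ?_, Or.inl hlt⟩
        rw [Sh_zero]
        exact hge j
      push Not at hlt
      by_cases hD : Dns k v ![w₀, w₁] y₀ Ψ
      · refine ⟨0, w₁, Polynomial.coeff_zero 0, fun j => ?_, Or.inr ⟨hlt, ⟨j₀, ?_, ?_⟩, ?_⟩⟩
        · rw [Sh_zero]
          exact hge j
        · rwa [Sh_zero]
        · rwa [Sh_zero]
        · rwa [Sh_zero]
      · unfold Dns at hD
        push Not at hD
        obtain ⟨d', hd, H, hiso, hinv, hH⟩ := hD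
        obtain ⟨m, a, hm, hwm, h1⟩ := bad_of_inv p hk (w := ![w₀, w₁]) hw0 hlt hy0 hv hj₀' hatt hd
          hH hiso hinv
        have hwm' : w₁ = m * w₀ := hwm
        have hmn : m ≤ n := by
          have h2 := h j₀ hj₀'
          rw [hatt, hwm'] at h2
          have h3 : (m : ℝ) * w₀ < ((n + 1 : ℕ) : ℝ) * w₀ := by linarith
          have h4 : (m : ℝ) < ((n + 1 : ℕ) : ℝ) := lt_of_mul_lt_mul_right h3 hw0.le
          have h5 : m < n + 1 := by exact_mod_cast h4
          omega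
        obtain ⟨g, w', hg, h2, h3⟩ := ih (Sh y₀ (Polynomial.C a * Polynomial.X ^ m) Ψ) (fun j => by
          rw [Sh_mon]
          refine (h1 j).mono ?_
          have h4 : (m : ℝ) * w₀ ≤ n * w₀ :=
            mul_le_mul_of_nonneg_right (by exact_mod_cast hmn) hw0.le
          change -((n : ℝ) * w₀ - j * w₀) ≤ -(w₁ - j * w₀)
          rw [hwm']
          linarith)
        rw [← Sh_add] at h3
        refine ⟨Polynomial.C a * Polynomial.X ^ m + g, w', ?_, fun j => ?_, h3⟩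
        · rw [Polynomial.coeff_add, hg, add_zero, Polynomial.coeff_C_mul, Polynomial.coeff_X_pow,
            if_neg (by omega), mul_zero]
        · rw [Sh_add]
          exact h2 j
  obtain ⟨n, hn⟩ : ∃ n : ℕ, (∑ j ∈ Ψ.support, (|v (Ψ.coeff j)| + j * w₀)) / w₀ < n :=
    exists_nat_gt _
  refine key n Ψ fun j hj => ?_
  have h1 : |v (Ψ.coeff j)| + j * w₀ ≤ ∑ j ∈ Ψ.support, (|v (Ψ.coeff j)| + j * w₀) :=
    Finset.single_le_sum (f := fun j : ℕ => |v (Ψ.coeff j)| + j * w₀) (fun i _ => by positivity)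
      (Polynomial.mem_support_iff.2 hj)
  rw [div_lt_iff₀ hw0] at hn
  have h2 := neg_abs_le (v (Ψ.coeff j))
  linarith

/-- **The case `w 0 = 0`.** -/
theorem dns_zero (p : ℕ) [hp : Fact p.Prime] [CharP k p] [CharP Ω p]
    (hk : Ctx0 k v) {w₁ : ℝ} (hw1 : 0 < w₁) {y₀ : Ω} (hy : v.Ge 0 y₀)
    {Ψ : Polynomial Ω} (hΨ : ∀ j : ℕ, v.Ge (-w₁) (Ψ.coeff j)) {j₀ : ℕ} (hj0 : Ψ.coeff j₀ ≠ 0)
    (hjv : v (Ψ.coeff j₀) = -w₁) : Dns k v ![0, w₁] y₀ Ψ := by
  classical
  intro d' hd H hiso hinv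
  by_contra hH
  have hp0 : 0 < p := hp.out.pos
  have halg : ∀ {c : k}, c ≠ 0 → algebraMap k Ω c ≠ 0 := fun hc => by
    rw [Ne, map_eq_zero]
    exact hc
  have hwt : ∀ m : Ex, wt ![0, w₁] m = m 1 * w₁ := fun m => by
    simp [wt]
  obtain ⟨M, hM, hMmax⟩ := Finset.exists_max_image H.support (fun m => m 0)
    (support_nonempty.2 hH)
  have hMc : coeff M H ≠ 0 := mem_support_iff.1 hM
  have hMd : (M 1 : ℝ) * w₁ = d' := by rw [← hwt, hiso M hM]
  have hm1 : ∀ m ∈ H.support, m 1 = M 1 := by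
    intro m hm
    have h1 := hiso m hm
    rw [hwt, ← hMd] at h1
    exact_mod_cast mul_right_cancel₀ hw1.ne' h1
  have hl0 : M 1 ≠ 0 := by
    intro h
    rw [h, Nat.cast_zero, zero_mul] at hMd
    exact hd.ne hMd
  obtain ⟨e, n, hn, hln⟩ := Nat.exists_eq_pow_mul_and_not_dvd hl0 p hp.out.ne_one
  have hnk : (n : k) ≠ 0 := by
    rw [Ne, CharP.cast_eq_zero_iff k p]
    exact hn
  have hpe : 0 < p ^ e := pow_pos hp0 e
  have hn0 : 0 < n := Nat.pos_of_ne_zero fun h => hn (by rw [h]; exact dvd_zero p)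
  have hpel : p ^ e ≤ M 1 := by
    rw [hln]
    exact Nat.le_mul_of_pos_right _ hn0
  set l := M 1 - p ^ e with hl
  have hlp : l + p ^ e = M 1 := by omega
  have hnΩ : (n : Ω) ≠ 0 := by
    rw [← map_natCast (algebraMap k Ω)]
    exact halg hnk
  have hvn : v (n : Ω) = 0 := by
    rw [← map_natCast (algebraMap k Ω)]
    exact hk.triv _ hnk
  set A : Polynomial Ω := ∑ m ∈ H.support, Polynomial.C (algebraMap k Ω (coeff m H)) *
    (Polynomial.X + Polynomial.C y₀) ^ m 0 with hA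
  have hcoef : ∀ j, coeff (mk j l) (LL y₀ Ψ H - MvPolynomial.map (algebraMap k Ω) H) =
      n * (A * Ψ ^ p ^ e).coeff j := by
    intro j
    have h1 : coeff (mk j l) H = 0 := by
      by_contra h
      have h2 := hm1 _ (mem_support_iff.2 h)
      rw [mk_one'] at h2
      omega
    rw [coeff_sub, coeff_map, h1, map_zero, sub_zero, coeff_LL, hA, Finset.sum_mul,
      Polynomial.finsetSum_coeff, Finset.mul_sum]
    refine Finset.sum_congr rfl fun m hm => ?_
    have e1 : m 1 - l = p ^ e := by rw [hm1 m hm]; omega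
    have e2 : (((m 1).choose l : ℕ) : Ω) = n := by
      rw [hm1 m hm, hl, Nat.choose_symm hpel, hln]
      exact choose_cast_one (R := Ω) (p := p) e n
    rw [e1, e2, mul_assoc, Polynomial.coeff_C_mul]
    ring
  have hAc : ∀ a, A.coeff a = ∑ m ∈ H.support, algebraMap k Ω (coeff m H) *
      (y₀ ^ (m 0 - a) * ((m 0).choose a : Ω)) := by
    intro a
    rw [hA, Polynomial.finsetSum_coeff]
    refine Finset.sum_congr rfl fun m _ => ?_
    rw [Polynomial.coeff_C_mul, Polynomial.coeff_X_add_C_pow]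
  have hAge : ∀ a, v.Ge 0 (A.coeff a) := by
    intro a
    rw [hAc]
    refine RVal.Ge.sum _ _ fun m _ => ?_
    have h1 := TWM.ge_pow hy (m 0 - a)
    have h2 := (hk.ge (coeff m H)).mul (h1.mul (hk.ge (((m 0).choose a : ℕ) : k)))
    rw [map_natCast] at h2
    refine h2.mono ?_
    simp
  have hAtop : A.coeff (M 0) = algebraMap k Ω (coeff M H) := by
    rw [hAc, Finset.sum_eq_single_of_mem M hM]
    · rw [Nat.sub_self, pow_zero, Nat.choose_self, Nat.cast_one, mul_one, mul_one]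
    · intro m hm hmM
      have h1 : m 0 < M 0 := lt_of_le_of_ne (hMmax m hm) fun h => hmM (ex_ext h (hm1 m hm))
      rw [Nat.choose_eq_zero_of_lt h1, Nat.cast_zero, mul_zero, mul_zero]
  have hAhi : ∀ a, M 0 < a → A.coeff a = 0 := by
    intro a ha
    rw [hAc]
    refine Finset.sum_eq_zero fun m hm => ?_
    have h1 : m 0 < a := lt_of_le_of_lt (hMmax m hm) ha
    rw [Nat.choose_eq_zero_of_lt h1, Nat.cast_zero, mul_zero, mul_zero]
  -- the last coefficient of maximal size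
  obtain ⟨j₁, hj₁, hj₁max⟩ := Finset.exists_max_image
    (Ψ.support.filter fun j => v (Ψ.coeff j) = -w₁) (fun j => j)
    ⟨j₀, Finset.mem_filter.2 ⟨Polynomial.mem_support_iff.2 hj0, hjv⟩⟩
  obtain ⟨hj₁s, hj₁v⟩ := Finset.mem_filter.1 hj₁
  have hj₁0 : Ψ.coeff j₁ ≠ 0 := Polynomial.mem_support_iff.1 hj₁s
  have hlate : ∀ j, j₁ < j → Gt v (-w₁) (Ψ.coeff j) := by
    intro j hj h0
    refine lt_of_le_of_ne (hΨ j h0) fun h => ?_
    have h1 := hj₁max j (Finset.mem_filter.2 ⟨Polynomial.mem_support_iff.2 h0, h.symm⟩)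
    exact absurd h1 (not_le.2 hj)
  have hpow : ∀ {x : Ω}, Gt v (-w₁) x → Gt v (-((p : ℝ) ^ e * w₁)) (x ^ p ^ e) := by
    intro x hx h0
    have hx0 : x ≠ 0 := fun h => h0 (by rw [h, zero_pow hpe.ne'])
    rw [v.map_pow hx0]
    have h1 := hx hx0
    have h2 : (0 : ℝ) < (p : ℝ) ^ e := by
      have : (0 : ℝ) < p := by exact_mod_cast hp0
      positivity
    push_cast
    have h3 := mul_lt_mul_of_pos_left h1 h2
    linarith
  have hmain := hinv (mk (M 0 + p ^ e * j₁) l)
  have hthr : wt ![0, w₁] (mk (M 0 + p ^ e * j₁) l) - d' = -((p : ℝ) ^ e * w₁) := by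
    rw [hwt, mk_one', ← hMd, ← hlp]
    push_cast
    ring
  rw [hcoef, hthr] at hmain
  -- the coefficient
  have hsplit : Gt v (-((p : ℝ) ^ e * w₁)) ((A * Ψ ^ p ^ e).coeff (M 0 + p ^ e * j₁) -
      algebraMap k Ω (coeff M H) * Ψ.coeff j₁ ^ p ^ e) := by
    have hmem : (M 0, p ^ e * j₁) ∈ Finset.HasAntidiagonal.antidiagonal (M 0 + p ^ e * j₁) :=
      Finset.HasAntidiagonal.mem_antidiagonal.2 rfl
    rw [Polynomial.coeff_mul, ← Finset.add_sum_erase _ _ hmem]
    simp only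
    rw [hAtop, coeff_pow_char_mul (p := p), add_sub_cancel_left]
    refine Gt.sum _ _ fun x hx => ?_
    obtain ⟨hx1, hx2⟩ := Finset.mem_erase.1 hx
    rw [Finset.HasAntidiagonal.mem_antidiagonal] at hx2
    rcases lt_trichotomy x.1 (M 0) with h | h | h
    · have h1 := hAge x.1
      have h2 : Gt v (-((p : ℝ) ^ e * w₁)) ((Ψ ^ p ^ e).coeff x.2) := by
        rw [coeff_pow_char]
        split_ifs with h3
        · obtain ⟨j, hj⟩ := h3
          rw [hj, Nat.mul_div_cancel_left _ hpe]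
          refine hpow (hlate j ?_)
          have h4 : p ^ e * j₁ < p ^ e * j := by omega
          exact lt_of_mul_lt_mul_left h4 hpe.le
        · exact Gt.zero
      have h3 := h2.mul_ge h1
      rw [add_zero] at h3
      rw [mul_comm (A.coeff x.1)]
      exact h3
    · exfalso
      apply hx1
      refine Prod.ext h ?_
      simp only
      omega
    · rw [hAhi _ h, zero_mul]
      exact Gt.zero
  have h1 : Gt v (-((p : ℝ) ^ e * w₁)) ((A * Ψ ^ p ^ e).coeff (M 0 + p ^ e * j₁)) := by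
    intro h0
    have h2 := hmain (mul_ne_zero hnΩ h0)
    rwa [v.map_mul hnΩ h0, hvn, zero_add] at h2
  have h2 := h1.sub hsplit
  rw [sub_sub_cancel] at h2
  refine not_gt (mul_ne_zero (halg hMc) (pow_ne_zero _ hj₁0)) ?_ h2
  rw [v.map_mul (halg hMc) (pow_ne_zero _ hj₁0), hk.triv _ hMc, v.map_pow hj₁0, hj₁v]
  push_cast
  ring

end good

end Pool.Agent.TWLG76
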