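import Pool.Agent.Lib.TWLG76.Good

/-!
# CT, j = 1: good coordinates, the coefficients of negative size

If the coefficients `Ψ_j`, `j ≥ 1`, are in `k[y₀]` up to terms which are small for the weights, then in
the good coordinates of `exists_good` the coefficients of size `< 0` are small for the weights.
-/

set_option autoImplicit false

namespace Pool.Agent.TWLG76

open MvPolynomial
open Pool.Agent.H15JM (RVal)
open Pool.Agent.LU1 (VPos)
open Pool.Agent.D2 (Ctx0)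
open Pool.Agent.TWM (Gt)
open Pool.Agent.TWLY (Ex mk mk_zero' mk_one' ex_ext mk_eta mk_eq_iff wt)

universe u

variable {k Ω : Type u} [Field k] [Field Ω] [Algebra k Ω] {v : RVal Ω}

/-- The value of a polynomial over `k` at an element of negative value. -/
theorem v_aeval (hk : Ctx0 k v) {w₀ : ℝ} (hw0 : 0 < w₀) {y₀ : Ω} (hy0 : y₀ ≠ 0)
    (hv : v y₀ = - w₀) {g : Polynomial k} (hg : g ≠ 0) :
    Polynomial.aeval y₀ g ≠ 0 ∧ v (Polynomial.aeval y₀ g) = -(g.natDegree * w₀) := by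
  have hl : g.leadingCoeff ≠ 0 := Polynomial.leadingCoeff_ne_zero.2 hg
  have hla : algebraMap k Ω g.leadingCoeff ≠ 0 := by
    rw [Ne, map_eq_zero]
    exact hl
  have hy : y₀ ^ g.natDegree ≠ 0 := pow_ne_zero _ hy0
  have h1 : v (algebraMap k Ω g.leadingCoeff * y₀ ^ g.natDegree) = -(g.natDegree * w₀) := by
    rw [v.map_mul hla hy, hk.triv _ hl, v.map_pow hy0, hv]
    ring
  have h2 : Polynomial.aeval y₀ g = ∑ i ∈ Finset.range g.natDegree,
      algebraMap k Ω (g.coeff i) * y₀ ^ i + algebraMap k Ω g.leadingCoeff * y₀ ^ g.natDegree := by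
    rw [Polynomial.aeval_eq_sum_range, Finset.sum_range_succ]
    congr 1
    · exact Finset.sum_congr rfl fun i _ => Algebra.smul_def _ _
    · exact Algebra.smul_def _ _
  have h3 : Gt v (-(g.natDegree * w₀)) (algebraMap k Ω g.leadingCoeff * y₀ ^ g.natDegree -
      Polynomial.aeval y₀ g) := by
    rw [h2, sub_add_cancel_right]
    refine Gt.neg (Gt.sum _ _ fun i hi => ?_)
    rw [Finset.mem_range] at hi
    have h4 : v.Ge (0 + -(i * w₀)) (algebraMap k Ω (g.coeff i) * y₀ ^ i) := by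
      refine (hk.ge _).mul ?_
      intro _
      rw [v.map_pow hy0, hv]
      linarith
    refine Gt.of_ge h4 ?_
    have h5 : (i : ℝ) * w₀ < g.natDegree * w₀ :=
      mul_lt_mul_of_pos_right (by exact_mod_cast hi) hw0
    linarith
  rw [← h1] at h3
  obtain ⟨h4, h5⟩ := Gt.val_eq (mul_ne_zero hla hy) h3
  exact ⟨h4, by rw [h5, h1]⟩

/-- The coefficients of the change of coordinates are in `k[y₀]`. -/
theorem Sh_coeff (y₀ : Ω) (f : Polynomial k) (Ψ : Polynomial Ω) (j : ℕ) :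
    (Sh y₀ f Ψ).coeff j = Ψ.coeff j +
      Polynomial.aeval y₀ (Polynomial.C (f.coeff j) - Polynomial.hasseDeriv j f) := by
  have h1 : (f.map (algebraMap k Ω)).comp (Polynomial.X + Polynomial.C y₀) =
      Polynomial.taylor y₀ (f.map (algebraMap k Ω)) := rfl
  have h2 : Polynomial.hasseDeriv j (f.map (algebraMap k Ω)) =
      (Polynomial.hasseDeriv j f).map (algebraMap k Ω) := by
    ext n
    rw [Polynomial.hasseDeriv_coeff, Polynomial.coeff_map, Polynomial.coeff_map,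
      Polynomial.hasseDeriv_coeff, map_mul, map_natCast]
  rw [Sh, h1, Polynomial.coeff_sub, Polynomial.coeff_add, Polynomial.taylor_coeff,
    Polynomial.coeff_map, h2, map_sub, Polynomial.aeval_C, Polynomial.eval_map_algebraMap]
  ring

/-- **The coefficients of negative size are small.** -/
theorem hpos_of (hk : Ctx0 k v) {w₀ w₁ : ℝ} (hw0 : 0 < w₀) (hw : w₀ ≤ w₁) {y₀ : Ω} (hy0 : y₀ ≠ 0)
    (hv : v y₀ = - w₀) {Ψ : Polynomial Ω} {f : Polynomial k}
    (hdec : ∀ j : ℕ, 1 ≤ j → ∃ r : Polynomial k,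
      Gt v (-(w₀ - j * w₀)) (Ψ.coeff j - Polynomial.aeval y₀ r)) (j : ℕ)
    (hj : Gt v 0 ((Sh y₀ f Ψ).coeff j)) : Gt v (-(w₁ - j * w₀)) ((Sh y₀ f Ψ).coeff j) := by
  rcases Nat.eq_zero_or_pos j with rfl | hj1
  · refine hj.mono ?_
    push_cast
    linarith
  obtain ⟨r, hr⟩ := hdec j hj1
  set g := r + (Polynomial.C (f.coeff j) - Polynomial.hasseDeriv j f) with hg
  have h1 : (Sh y₀ f Ψ).coeff j = (Ψ.coeff j - Polynomial.aeval y₀ r) +
      Polynomial.aeval y₀ g := by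
    rw [Sh_coeff, hg, map_add]
    ring
  have h1j : (1 : ℝ) ≤ j := by exact_mod_cast hj1
  by_cases hg0 : g = 0
  · rw [h1, hg0, map_zero, add_zero]
    refine hr.mono ?_
    linarith
  · exfalso
    obtain ⟨h2, h3⟩ := v_aeval hk hw0 hy0 hv hg0
    have h4 : 0 ≤ (g.natDegree : ℝ) * w₀ := by positivity
    have h5 : Gt v (v (Polynomial.aeval y₀ g)) (Polynomial.aeval y₀ g -
        (Sh y₀ f Ψ).coeff j) := by
      rw [h1, sub_add_cancel_right, h3]
      refine (hr.mono ?_).neg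
      nlinarith
    obtain ⟨h6, h7⟩ := Gt.val_eq h2 h5
    have h8 := hj h6
    rw [h7, h3] at h8
    linarith

/-- **Good coordinates**, with the coefficients of negative size. -/
theorem exists_good_pos (p : ℕ) [hp : Fact p.Prime] [CharP k p] [CharP Ω p] [IsAlgClosed k]
    (hk : Ctx0 k v) {w₀ : ℝ} (hw0 : 0 < w₀) {y₀ : Ω} (hy0 : y₀ ≠ 0) (hv : v y₀ = - w₀)
    {Ψ : Polynomial Ω}
    (hdec : ∀ j : ℕ, 1 ≤ j → ∃ r : Polynomial k,
      Gt v (-(w₀ - j * w₀)) (Ψ.coeff j - Polynomial.aeval y₀ r)) :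
    ∃ (f : Polynomial k) (w₁ : ℝ), f.coeff 0 = 0 ∧
      (∀ j : ℕ, v.Ge (-(w₁ - j * w₀)) ((Sh y₀ f Ψ).coeff j)) ∧
      (w₁ < w₀ ∨ (w₀ ≤ w₁ ∧ (∃ j : ℕ, (Sh y₀ f Ψ).coeff j ≠ 0 ∧
        v ((Sh y₀ f Ψ).coeff j) = -(w₁ - j * w₀)) ∧ Dns k v ![w₀, w₁] y₀ (Sh y₀ f Ψ) ∧
        ∀ j : ℕ, Gt v 0 ((Sh y₀ f Ψ).coeff j) → Gt v (-(w₁ - j * w₀)) ((Sh y₀ f Ψ).coeff j))) := by
  obtain ⟨f, w₁, h1, h2, h3⟩ := exists_good p hk hw0 hy0 hv Ψ
  refine ⟨f, w₁, h1, h2, ?_⟩
  rcases h3 with h3 | ⟨h3, h4, h5⟩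
  · exact Or.inl h3
  · exact Or.inr ⟨h3, h4, h5, fun j hj => hpos_of hk hw0 h3 hy0 hv hdec j hj⟩

end Pool.Agent.TWLG76
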