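import Mathlib
import Pool.Agent.Lib.TWLY.C

/-!
# CT, j = 1: from the points of `k ^ n` to the point `ξ` of `Ω ^ n`

`P = ∑ κ i Fr ^ (i + 1)`, `i ≤ t`, `Q = p ^ (t + 1)`.
* `exists_red'`: over a perfect `k`-algebra the monomials with exponents divisible by `Q` can be
  absorbed in `P(λ)`;
* `coeff_eq_zero_of_red`: a reduced polynomial in `P(λ) + V` is in `V`, `V` given by a set of
  exponents stable under multiplication;
* `pt_red`: if for all `h` there is a `λ_h` such that `F(h) + P(λ_h)` has no exponents in `U`, then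
  the same for `F(ξ)`; `pt_lam`: for `F` with coefficients in `k[h]`;
* `pt_mem`: if `F(h)` is in `V` for all `h`, then `F(ξ)` is in `Ω V`.
-/

set_option autoImplicit false

namespace Pool.Agent.TWLG76

open MvPolynomial
open Pool.Agent.TWLY (Ex PP dg dg_smul dg_eq_zero mk mk_eq_iff ex_ext coeff_pow_smul
  exists_of_coeff_pow PP_map PP_add PP_sub PP_zero)

section red

variable {k R : Type*} [Field k] [CommRing R] [Algebra k R] {p : ℕ} [hp : Fact p.Prime]
  {κ : ℕ → k} {t : ℕ}

omit hp in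
theorem coeff_PP' (m : Ex) (f : MvPolynomial (Fin 2) R) :
    coeff m (PP p κ t f) =
      ∑ i ∈ Finset.range (t + 1), algebraMap k R (κ i) * coeff m (f ^ p ^ (i + 1)) := by
  unfold PP
  rw [coeff_sum]
  refine Finset.sum_congr rfl fun i _ => ?_
  rw [IsScalarTower.algebraMap_apply k R (MvPolynomial (Fin 2) R), algebraMap_eq, coeff_C_mul]

omit hp in
theorem exists_root_pow (hR : ∀ a : R, ∃ b : R, b ^ p = a) (n : ℕ) (a : R) :
    ∃ b : R, b ^ p ^ n = a := by
  induction n generalizing a with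
  | zero => exact ⟨a, by simp⟩
  | succ n ih =>
    obtain ⟨b, hb⟩ := ih a
    obtain ⟨c, hc⟩ := hR b
    exact ⟨c, by rw [pow_succ', pow_mul, hc, hb]⟩

variable [CharP R p]

/-- One step of the reduction. -/
theorem red_step' (hR : ∀ a : R, ∃ b : R, b ^ p = a) (hκ : κ t ≠ 0) (n : ℕ)
    (G : MvPolynomial (Fin 2) R)
    (hG : ∀ m : Ex, m ≠ 0 → n < dg m → coeff (p ^ (t + 1) • m) G = 0) (hn : n ≠ 0) :
    ∃ f : MvPolynomial (Fin 2) R, constantCoeff f = 0 ∧
      ∀ m : Ex, m ≠ 0 → n - 1 < dg m → coeff (p ^ (t + 1) • m) (G + PP p κ t f) = 0 := by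
  classical
  have hp1 : 1 < p := hp.out.one_lt
  have hp0 : 0 < p := by omega
  have hroot : ∀ a : R, ∃ b : R, algebraMap k R (κ t) * b ^ p ^ (t + 1) = - a ∧
      (a = 0 → b = 0) := by
    intro a
    by_cases ha : a = 0
    · refine ⟨0, ?_, fun _ => rfl⟩
      rw [ha, zero_pow (by positivity), mul_zero, neg_zero]
    · obtain ⟨b, hb⟩ := exists_root_pow hR (t + 1) (- (algebraMap k R (κ t)⁻¹ * a))
      refine ⟨b, ?_, fun h => absurd h ha⟩
      rw [hb, mul_neg, ← mul_assoc, ← map_mul, mul_inv_cancel₀ hκ, map_one, one_mul]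
  choose rt hrt hrt0 using hroot
  set S : Finset Ex := (Finset.range (n + 1)).image (fun i => mk i (n - i)) with hS
  have hmemS : ∀ m : Ex, m ∈ S ↔ dg m = n := by
    intro m
    rw [hS, Finset.mem_image]
    constructor
    · rintro ⟨i, hi, rfl⟩
      rw [Finset.mem_range] at hi
      unfold dg
      simp
      omega
    · intro h
      refine ⟨m 0, ?_, ?_⟩
      · rw [Finset.mem_range]
        unfold dg at h
        omega
      · rw [mk_eq_iff]
        unfold dg at h
        omega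
  set f : MvPolynomial (Fin 2) R := ∑ m ∈ S, monomial m (rt (coeff (p ^ (t + 1) • m) G)) with hf
  have hcf : ∀ m : Ex, coeff m f = if dg m = n then rt (coeff (p ^ (t + 1) • m) G) else 0 := by
    intro m
    rw [hf, coeff_sum]
    simp_rw [coeff_monomial]
    rw [Finset.sum_ite_eq']
    simp_rw [hmemS]
  refine ⟨f, ?_, ?_⟩
  · rw [constantCoeff_eq, hcf, if_neg]
    intro h
    apply hn
    rw [← h]
    simp [dg]
  · intro m hm hnm
    have hdm : dg m ≠ 0 := fun h => hm (dg_eq_zero.mp h)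
    rw [coeff_add, coeff_PP', Finset.sum_range_succ]
    have h1 : ∑ i ∈ Finset.range t, algebraMap k R (κ i) *
        coeff (p ^ (t + 1) • m) (f ^ p ^ (i + 1)) = 0 := by
      refine Finset.sum_eq_zero fun i hi => ?_
      rw [Finset.mem_range] at hi
      have h2 : p ^ (t + 1) • m = p ^ (i + 1) • (p ^ (t - i) • m) := by
        rw [smul_smul, ← pow_add]
        congr 2
        omega
      rw [h2, coeff_pow_smul, hcf, if_neg, zero_pow (by positivity), mul_zero]
      rw [dg_smul]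
      intro h3
      have h4 : 1 < p ^ (t - i) := Nat.one_lt_pow (by omega) hp1
      have h5 : dg m < p ^ (t - i) * dg m := by
        nlinarith [Nat.pos_of_ne_zero hdm]
      omega
    rw [h1, zero_add, coeff_pow_smul, hcf]
    split_ifs with h6
    · rw [hrt]
      ring
    · rw [zero_pow (by positivity), mul_zero, add_zero]
      exact hG m hm (by omega)

/-- All monomials whose exponent is divisible by `p ^ (t + 1)` can be absorbed. -/
theorem exists_red' (hR : ∀ a : R, ∃ b : R, b ^ p = a) (hκ : κ t ≠ 0)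
    (G : MvPolynomial (Fin 2) R) :
    ∃ f : MvPolynomial (Fin 2) R, constantCoeff f = 0 ∧
      ∀ m : Ex, m ≠ 0 → coeff (p ^ (t + 1) • m) (G + PP p κ t f) = 0 := by
  classical
  have hp0 : 0 < p := hp.out.pos
  have hB : ∃ n : ℕ, ∀ m : Ex, m ≠ 0 → n < dg m → coeff (p ^ (t + 1) • m) G = 0 := by
    refine ⟨∑ e ∈ G.support, dg e, fun m hm hn => ?_⟩
    by_contra h0
    have h1 : dg (p ^ (t + 1) • m) ≤ ∑ e ∈ G.support, dg e :=
      Finset.single_le_sum (f := dg) (fun _ _ => Nat.zero_le _) (mem_support_iff.mpr h0)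
    rw [dg_smul] at h1
    have h2 : 1 ≤ p ^ (t + 1) := Nat.one_le_pow _ _ hp0
    nlinarith
  obtain ⟨n, hn⟩ := hB
  induction n generalizing G with
  | zero =>
    refine ⟨0, by simp, fun m hm => ?_⟩
    rw [PP_zero, add_zero]
    exact hn m hm (Nat.pos_of_ne_zero fun h => hm (dg_eq_zero.mp h))
  | succ n ih =>
    obtain ⟨f, hf, h1⟩ := red_step' hR hκ (n + 1) G hn (by omega)
    obtain ⟨g, hg, h2⟩ := ih (G + PP p κ t f) (fun m hm h => h1 m hm (by omega))
    refine ⟨f + g, by rw [map_add, hf, hg, add_zero], fun m hm => ?_⟩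
    rw [PP_add, ← add_assoc]
    exact h2 m hm

omit [CharP R p] in
theorem PP_neg' (f : R) [CharP R p] : PP p κ t (-f) = - PP p κ t f := by
  have h := PP_sub (p := p) (κ := κ) (t := t) (0 : R) f
  rwa [zero_sub, PP_zero, zero_sub] at h

end red

section chain

variable {k K : Type*} [Field k] [Field K] [Algebra k K] {p : ℕ} [hp : Fact p.Prime] [CharP K p]
  {κ : ℕ → k} {t : ℕ}

/-- **Uniqueness of the reduced form**, modulo exponents outside of `U`. -/
theorem coeff_eq_zero_of_red (hκ : κ t ≠ 0) {U : Ex → Prop} (hU0 : ∀ m, U m → m ≠ 0)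
    (hU : ∀ (m : Ex) (a : ℕ), 0 < a → U m → U (a • m)) {f lam : MvPolynomial (Fin 2) K}
    (hf : ∀ m : Ex, m ≠ 0 → coeff (p ^ (t + 1) • m) f = 0)
    (h : ∀ m : Ex, U m → coeff m (f + PP p κ t lam) = 0) (m : Ex) (hm : U m) :
    coeff m f = 0 := by
  classical
  have hp1 : 1 < p := hp.out.one_lt
  have hp0 : 0 < p := by omega
  -- `lam` has no exponents `m` with `Q m` in `U`
  have key : ∀ (n : ℕ) (m : Ex), U (p ^ (t + 1) • m) →
      (∑ e ∈ lam.support, dg e) + 1 ≤ dg m + n → coeff m lam = 0 := by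
    intro n
    induction n with
    | zero =>
      intro m _ hn
      by_contra h0
      have h1 : dg m ≤ ∑ e ∈ lam.support, dg e :=
        Finset.single_le_sum (f := dg) (fun _ _ => Nat.zero_le _) (mem_support_iff.mpr h0)
      omega
    | succ n ih =>
      intro m hUm hn
      have hm0 : m ≠ 0 := by
        rintro rfl
        exact hU0 _ hUm (by simp)
      have hdm : dg m ≠ 0 := fun h => hm0 (dg_eq_zero.mp h)
      have h1 := h _ hUm
      rw [coeff_add, hf m hm0, zero_add, coeff_PP', Finset.sum_range_succ] at h1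
      have h2 : ∑ i ∈ Finset.range t, algebraMap k K (κ i) *
          coeff (p ^ (t + 1) • m) (lam ^ p ^ (i + 1)) = 0 := by
        refine Finset.sum_eq_zero fun i hi => ?_
        rw [Finset.mem_range] at hi
        have h3 : p ^ (t + 1) • m = p ^ (i + 1) • (p ^ (t - i) • m) := by
          rw [smul_smul, ← pow_add]
          congr 2
          omega
        rw [h3, coeff_pow_smul, ih (p ^ (t - i) • m), zero_pow (by positivity), mul_zero]
        · rw [smul_smul, mul_comm, ← smul_smul]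
          exact hU _ _ (by positivity) hUm
        · rw [dg_smul]
          have h4 : 1 < p ^ (t - i) := Nat.one_lt_pow (by omega) hp1
          have h5 : dg m < p ^ (t - i) * dg m := by
            nlinarith [Nat.pos_of_ne_zero hdm]
          omega
      rw [h2, zero_add, coeff_pow_smul] at h1
      have h6 : algebraMap k K (κ t) ≠ 0 := by
        rw [Ne, map_eq_zero]
        exact hκ
      exact eq_zero_of_pow_eq_zero ((mul_eq_zero.1 h1).resolve_left h6)
  have h1 := h m hm
  rw [coeff_add, coeff_PP'] at h1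
  have h2 : ∑ i ∈ Finset.range (t + 1), algebraMap k K (κ i) *
      coeff m (lam ^ p ^ (i + 1)) = 0 := by
    refine Finset.sum_eq_zero fun i hi => ?_
    rw [Finset.mem_range] at hi
    by_contra h3
    obtain ⟨m', rfl, h4⟩ := exists_of_coeff_pow p lam (i + 1) (right_ne_zero_of_mul h3)
    refine h4 (key ((∑ e ∈ lam.support, dg e) + 1) m' ?_ (by omega))
    have h5 : p ^ (t + 1) • m' = p ^ (t - i) • (p ^ (i + 1) • m') := by
      rw [smul_smul, ← pow_add]
      congr 2
      omega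
    rw [h5]
    exact hU _ _ (by positivity) hm
  rwa [h2, add_zero] at h1

end chain

section pt

variable {k R Ω : Type*} [Field k] [CommRing R] [Algebra k R] [Field Ω] [Algebra k Ω]
  {p : ℕ} [hp : Fact p.Prime] [CharP k p] [CharP R p] {κ : ℕ → k} {t : ℕ}

omit [Field Ω] [Algebra k Ω] hp [CharP k p] [CharP R p] in
theorem map_PP {B : Type*} [CommRing B] [Algebra k B] (φ : R →ₐ[k] B)
    (f : MvPolynomial (Fin 2) R) :
    MvPolynomial.map (φ : R →+* B) (PP p κ t f) =
      PP p κ t (MvPolynomial.map (φ : R →+* B) f) :=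
  PP_map (p := p) (κ := κ) (t := t) (MvPolynomial.mapAlgHom (σ := Fin 2) φ) f

/-- **From all `h` to `ξ`**, over a perfect algebra. -/
theorem pt_red {H : Type*} (hR : ∀ a : R, ∃ b : R, b ^ p = a) (hκ : κ t ≠ 0)
    (ev : H → R →ₐ[k] k) (ξ : R →ₐ[k] Ω) (hz : ∀ r : R, (∀ h, ev h r = 0) → ξ r = 0)
    {U : Ex → Prop} (hU0 : ∀ m, U m → m ≠ 0)
    (hU : ∀ (m : Ex) (a : ℕ), 0 < a → U m → U (a • m)) (F : MvPolynomial (Fin 2) R)
    (hF : ∀ h, ∃ lam : MvPolynomial (Fin 2) k, ∀ m, U m →
      coeff m (MvPolynomial.map (ev h : R →+* k) F + PP p κ t lam) = 0) :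
    ∃ lam : MvPolynomial (Fin 2) Ω, ∀ m, U m →
      coeff m (MvPolynomial.map (ξ : R →+* Ω) F + PP p κ t lam) = 0 := by
  obtain ⟨f, -, h1⟩ := exists_red' (κ := κ) (t := t) hR hκ F
  refine ⟨MvPolynomial.map (ξ : R →+* Ω) f, fun m hm => ?_⟩
  rw [← map_PP, ← map_add, coeff_map]
  refine hz _ fun h => ?_
  obtain ⟨lam, h2⟩ := hF h
  have h3 := coeff_eq_zero_of_red (κ := κ) (t := t) hκ hU0 hU
    (f := MvPolynomial.map (ev h : R →+* k) (F + PP p κ t f))
    (lam := lam - MvPolynomial.map (ev h : R →+* k) f) (fun m hm => ?_) (fun m hm => ?_) m hm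
  · rwa [coeff_map] at h3
  · rw [coeff_map, h1 m hm, map_zero]
  · rw [map_add, map_PP, PP_sub, add_add_sub_cancel]
    exact h2 m hm

end pt

section poly

variable {k Ω σ : Type*} [Field k] [Field Ω] [Algebra k Ω] {p : ℕ} [hp : Fact p.Prime]
  [CharP k p] [CharP Ω p] {κ : ℕ → k} {t : ℕ}

omit [Field Ω] [Algebra k Ω] [CharP Ω p] in
theorem map_of_eq {B : Type*} [CommRing B] (F : MvPolynomial (Fin 2) (MvPolynomial σ k))
    (ψ : PerfectClosure (MvPolynomial σ k) p →+* B) (φ : MvPolynomial σ k →+* B)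
    (h : ∀ a, ψ (PerfectClosure.of (MvPolynomial σ k) p a) = φ a) :
    MvPolynomial.map ψ (MvPolynomial.map (PerfectClosure.of (MvPolynomial σ k) p) F) =
      MvPolynomial.map φ F := by
  have h1 : ψ.comp (PerfectClosure.of (MvPolynomial σ k) p) = φ := RingHom.ext h
  rw [MvPolynomial.map_map, h1]

/-- The `k`-algebra structure of the perfect closure. -/
@[reducible] noncomputable def algPC (p : ℕ) [Fact p.Prime] (A : Type*) [CommRing A] [Algebra k A]
    [CharP A p] : Algebra k (PerfectClosure A p) :=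
  ((PerfectClosure.of A p).comp (algebraMap k A)).toAlgebra

omit [CharP k p] in
theorem exists_lift {A B : Type*} [CommRing A] [Algebra k A] [CharP A p] [CommRing B]
    [Algebra k B] [CharP B p] [PerfectRing B p] (φ : A →ₐ[k] B) :
    letI := algPC (k := k) p A
    ∃ ψ : PerfectClosure A p →ₐ[k] B, ∀ a : A, ψ (PerfectClosure.of A p a) = φ a := by
  let _ := algPC (k := k) p A
  let ψ := PerfectClosure.lift A p B (φ : A →+* B)
  have h1 : ψ.comp (PerfectClosure.of A p) = (φ : A →+* B) :=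
    (PerfectClosure.lift A p B).left_inv (φ : A →+* B)
  have h2 : ∀ a : A, ψ (PerfectClosure.of A p a) = φ a := fun a =>
    RingHom.congr_fun h1 a
  refine ⟨{ ψ with commutes' := fun a => ?_ }, h2⟩
  have h3 := h2 (algebraMap k A a)
  rw [φ.commutes] at h3
  exact h3

/-- **From all `h` to `ξ`**: `F` has coefficients in `k[h]`, the polynomials which vanish on `H`
vanish in `ξ`. -/
theorem pt_lam (hk : ∀ a : k, ∃ b : k, b ^ p = a) (hΩ : ∀ a : Ω, ∃ b : Ω, b ^ p = a)
    (hκ : κ t ≠ 0) {H : Set (σ → k)} {ξ : σ → Ω}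
    (hz : ∀ P : MvPolynomial σ k, (∀ h ∈ H, eval h P = 0) → aeval ξ P = 0)
    {U : Ex → Prop} (hU0 : ∀ m, U m → m ≠ 0)
    (hU : ∀ (m : Ex) (a : ℕ), 0 < a → U m → U (a • m))
    (F : MvPolynomial (Fin 2) (MvPolynomial σ k))
    (hF : ∀ h ∈ H, ∃ lam : MvPolynomial (Fin 2) k, ∀ m, U m →
      coeff m (MvPolynomial.map (eval h) F + PP p κ t lam) = 0) :
    ∃ lam : MvPolynomial (Fin 2) Ω, ∀ m, U m →
      coeff m (MvPolynomial.map ((aeval ξ : MvPolynomial σ k →ₐ[k] Ω) : MvPolynomial σ k →+* Ω) F +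
        PP p κ t lam) = 0 := by
  have hp0 : 0 < p := hp.out.pos
  have pk : PerfectRing k p := by
    have : IsReduced k := inferInstance
    exact PerfectRing.ofSurjective k p fun a => by
      obtain ⟨b, hb⟩ := hk a
      exact ⟨b, hb⟩
  have pΩ : PerfectRing Ω p := PerfectRing.ofSurjective Ω p fun a => by
    obtain ⟨b, hb⟩ := hΩ a
    exact ⟨b, hb⟩
  let A := MvPolynomial σ k
  let R := PerfectClosure A p
  let _ : Algebra k R := algPC p A
  have hR : ∀ a : R, ∃ b : R, b ^ p = a := fun a => by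
    obtain ⟨b, hb⟩ := (PerfectRing.bijective_frobenius (R := R) (p := p)).2 a
    exact ⟨b, hb⟩
  choose ev hev using fun h : H => exists_lift (p := p) (aeval (h : σ → k) : A →ₐ[k] k)
  obtain ⟨ξ', hξ'⟩ := exists_lift (p := p) (aeval ξ : A →ₐ[k] Ω)
  have hz' : ∀ r : R, (∀ h, ev h r = 0) → ξ' r = 0 := by
    intro r hr
    obtain ⟨⟨n, P⟩, rfl⟩ := PerfectClosure.mk_surjective A p r
    have h1 : (PerfectClosure.mk A p (n, P)) ^ p ^ n = PerfectClosure.of A p P := by
      rw [← PerfectClosure.iterate_frobenius_mk A p n P]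
      exact (iterate_frobenius p n _).symm
    have h2 : aeval ξ P = 0 := by
      refine hz P fun h hh => ?_
      have h3 := hev ⟨h, hh⟩ P
      rw [← h1, map_pow, hr ⟨h, hh⟩, zero_pow (by positivity)] at h3
      rw [← MvPolynomial.coe_aeval_eq_eval]
      exact h3.symm
    have h3 := hξ' P
    rw [← h1, map_pow, h2] at h3
    exact eq_zero_of_pow_eq_zero h3
  obtain ⟨lam, h1⟩ := pt_red (κ := κ) (t := t) hR hκ ev ξ' hz' hU0 hU
    (MvPolynomial.map (PerfectClosure.of A p) F) (fun h => by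
      obtain ⟨lam, h1⟩ := hF h h.2
      refine ⟨lam, fun m hm => ?_⟩
      rw [map_of_eq F (ev h : R →+* k) ((aeval (h : σ → k) : A →ₐ[k] k) : A →+* k) (hev h)]
      exact h1 m hm)
  refine ⟨lam, fun m hm => ?_⟩
  have h2 := h1 m hm
  rwa [map_of_eq F (ξ' : R →+* Ω) ((aeval ξ : A →ₐ[k] Ω) : A →+* Ω) hξ'] at h2

open Pool.Agent.TWLY (wt wt_smul) in
/-- **From all `h ∈ k ^ n` to `ξ`**: (h2). -/
theorem h2_of [IsAlgClosed k] (hΩ : ∀ a : Ω, ∃ b : Ω, b ^ p = a)
    (hκ : κ t ≠ 0) {w : Fin 2 → ℝ} (hw : ∀ i, 0 ≤ w i) {B : ℝ}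
    (F : MvPolynomial (Fin 2) (MvPolynomial σ k))
    (hF : ∀ h : σ → k, ∃ lam : MvPolynomial (Fin 2) k, ∀ m : Ex, m ≠ 0 → B ≤ wt w m →
      coeff m (MvPolynomial.map (eval h) F + PP p κ t lam) = 0) (ξ : σ → Ω) :
    ∃ lam : MvPolynomial (Fin 2) Ω, ∀ m : Ex, m ≠ 0 → B ≤ wt w m →
      coeff m (MvPolynomial.map ((aeval ξ : MvPolynomial σ k →ₐ[k] Ω) : MvPolynomial σ k →+* Ω) F +
        PP p κ t lam) = 0 := by
  have hp0 : p ≠ 0 := hp.out.ne_zero
  have hU : ∀ (m : Ex) (a : ℕ), 0 < a → (m ≠ 0 ∧ B ≤ wt w m) →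
      (a • m ≠ 0 ∧ B ≤ wt w (a • m)) := by
    intro m a ha hm
    refine ⟨fun h => hm.1 ((smul_eq_zero.1 h).resolve_left ha.ne'), ?_⟩
    rw [wt_smul]
    have h1 : (1 : ℝ) ≤ a := by exact_mod_cast ha
    have h2 := TWLY.wt_nonneg hw m
    nlinarith [hm.2]
  have hz : ∀ P : MvPolynomial σ k, (∀ h ∈ (Set.univ : Set (σ → k)), eval h P = 0) →
      aeval ξ P = 0 := by
    intro P hP
    have h1 : P = 0 := MvPolynomial.funext fun h => by
      rw [hP h (Set.mem_univ h), map_zero]
    rw [h1, map_zero]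
  obtain ⟨lam, h1⟩ := pt_lam (k := k) (p := p) (κ := κ) (t := t)
    (fun a => IsAlgClosed.exists_pow_nat_eq a (Nat.pos_of_ne_zero hp0)) hΩ hκ hz
    (fun m hm => hm.1) hU F (fun h _ => by
      obtain ⟨lam, h2⟩ := hF h
      exact ⟨lam, fun m hm => h2 m hm.1 hm.2⟩)
  exact ⟨lam, fun m hm hB => h1 m ⟨hm, hB⟩⟩

end poly

section mem

variable {k Ω σ τ : Type*} [Field k] [Field Ω] [Algebra k Ω]

theorem map_eq_sum {A B : Type*} [CommRing A] [CommRing B] (φ : A →+* B)
    (F : MvPolynomial τ A) :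
    MvPolynomial.map φ F = ∑ m ∈ F.support, φ (coeff m F) • monomial m (1 : B) := by
  conv_lhs => rw [F.as_sum, map_sum]
  refine Finset.sum_congr rfl fun m _ => ?_
  rw [map_monomial, smul_monomial, smul_eq_mul, mul_one]

/-- **From all `h` to `ξ`**: a subspace. -/
theorem pt_mem {H : Set (σ → k)} {ξ : σ → Ω}
    (hz : ∀ P : MvPolynomial σ k, (∀ h ∈ H, eval h P = 0) → aeval ξ P = 0)
    (V : Submodule k (MvPolynomial τ k)) (F : MvPolynomial τ (MvPolynomial σ k))
    (hF : ∀ h ∈ H, MvPolynomial.map (eval h) F ∈ V) :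
    MvPolynomial.map ((aeval ξ : MvPolynomial σ k →ₐ[k] Ω) : MvPolynomial σ k →+* Ω) F ∈
      Submodule.span Ω (MvPolynomial.map (algebraMap k Ω) '' (V : Set (MvPolynomial τ k))) := by
  classical
  obtain ⟨V', hV'⟩ := Submodule.exists_isCompl V
  -- the projection to the complement
  set π : MvPolynomial τ k →ₗ[k] MvPolynomial τ k := V'.projection V hV'.symm with hπ
  have hπ0 : ∀ f ∈ V, π f = 0 := fun f hf => by
    rw [hπ, Submodule.projection_apply_eq_zero_iff]
    exact hf
  have hπV : ∀ f, f - π f ∈ V := fun f => by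
    rw [← Submodule.projection_apply_eq_zero_iff hV'.symm, map_sub, sub_eq_zero]
    rw [hπ]
    exact (Submodule.projection_apply_of_mem_left hV'.symm
      (Submodule.projection_apply_mem hV'.symm f)).symm
  have hcoef : ∀ n : τ →₀ ℕ,
      aeval ξ (∑ m ∈ F.support, C (coeff n (π (monomial m (1 : k)))) * coeff m F) = 0 := by
    intro n
    refine hz _ fun h hh => ?_
    have h1 := hπ0 _ (hF h hh)
    rw [map_eq_sum, map_sum] at h1
    have h2 := congrArg (coeff n) h1
    rw [coeff_sum, coeff_zero] at h2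
    rw [map_sum, ← h2]
    refine Finset.sum_congr rfl fun m _ => ?_
    rw [map_mul, eval_C, map_smul, coeff_smul, smul_eq_mul, mul_comm]
  rw [map_eq_sum]
  have h1 : ∀ m, (monomial m (1 : Ω) : MvPolynomial τ Ω) =
      MvPolynomial.map (algebraMap k Ω) (monomial m (1 : k) - π (monomial m (1 : k))) +
        MvPolynomial.map (algebraMap k Ω) (π (monomial m (1 : k))) := by
    intro m
    rw [← map_add, sub_add_cancel, map_monomial, (algebraMap k Ω).map_one]
  have h2 : ∑ m ∈ F.support, ((aeval ξ : MvPolynomial σ k →ₐ[k] Ω) : MvPolynomial σ k →+* Ω)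
      (coeff m F) • MvPolynomial.map (algebraMap k Ω) (π (monomial m (1 : k))) = 0 := by
    ext n
    rw [coeff_sum, coeff_zero, ← hcoef n, map_sum]
    refine Finset.sum_congr rfl fun m _ => ?_
    rw [map_mul, coeff_smul, smul_eq_mul, coeff_map, mul_comm, ← algebraMap_eq, AlgHom.commutes]
    rfl
  have h3 : ∑ m ∈ F.support, ((aeval ξ : MvPolynomial σ k →ₐ[k] Ω) : MvPolynomial σ k →+* Ω)
      (coeff m F) • (monomial m (1 : Ω) : MvPolynomial τ Ω) =
      ∑ m ∈ F.support, ((aeval ξ : MvPolynomial σ k →ₐ[k] Ω) : MvPolynomial σ k →+* Ω)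
      (coeff m F) • MvPolynomial.map (algebraMap k Ω)
        (monomial m (1 : k) - π (monomial m (1 : k))) := by
    rw [← sub_eq_zero, ← Finset.sum_sub_distrib, ← h2]
    refine Finset.sum_congr rfl fun m _ => ?_
    rw [h1 m, smul_add, add_sub_cancel_left]
  rw [h3]
  exact Submodule.sum_mem _ fun m _ => Submodule.smul_mem _ _
    (Submodule.subset_span ⟨_, hπV _, rfl⟩)

end mem

end Pool.Agent.TWLG76
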