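import Pool.Agent.Lib.TWLG76.GoodP

/-!
# CT, j = 1: the letters `s ^ p`, `c ^ p`

`Dns` for `(y₀, Ψ)`, weights `w`, gives `Dns` for the Frobenius twist `(y₀ ^ p, Ψ ^ (p))`, weights
`p w`.
-/

set_option autoImplicit false

namespace Pool.Agent.TWLG76

open MvPolynomial
open Pool.Agent.H15JM (RVal)
open Pool.Agent.D2 (Ctx0)
open Pool.Agent.TWM (Gt)
open Pool.Agent.TWLY (Ex mk mk_zero' mk_one' ex_ext mk_eta mk_eq_iff wt)

universe u

variable {k Ω : Type u} [Field k] [Field Ω] [Algebra k Ω] {v : RVal Ω}

/-- The Frobenius twist of the translate. -/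
theorem LL_twist (p : ℕ) [hp : Fact p.Prime] [CharP k p] [CharP Ω p] (y₀ : Ω) (Ψ : Polynomial Ω)
    (H : MvPolynomial (Fin 2) k) :
    MvPolynomial.map (frobenius Ω p) (LL y₀ Ψ H) =
      LL (y₀ ^ p) (Ψ.map (frobenius Ω p)) (MvPolynomial.map (frobenius k p) H) := by
  have h1 : Polynomial.aeval (X 0 : MvPolynomial (Fin 2) Ω) (Ψ.map (frobenius Ω p)) =
      MvPolynomial.map (frobenius Ω p) (Polynomial.aeval (X 0 : MvPolynomial (Fin 2) Ω) Ψ) := by
    induction Ψ using Polynomial.induction_on' with
    | add f g hf hg => rw [Polynomial.map_add, map_add, map_add, map_add, hf, hg]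
    | monomial n c =>
      rw [Polynomial.map_monomial, Polynomial.aeval_monomial, Polynomial.aeval_monomial, map_mul,
        map_pow, map_X, algebraMap_eq, map_C]
  induction H using MvPolynomial.induction_on with
  | C a =>
    rw [map_C, ← algebraMap_eq, AlgHom.commutes, AlgHom.commutes,
      IsScalarTower.algebraMap_apply k Ω (MvPolynomial (Fin 2) Ω),
      IsScalarTower.algebraMap_apply k Ω (MvPolynomial (Fin 2) Ω), algebraMap_eq, map_C,
      frobenius_def, frobenius_def, map_pow, map_pow, map_pow]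
  | add f g hf hg => rw [map_add, map_add, hf, hg, map_add, map_add]
  | mul_X f i hf =>
    rw [map_mul, map_mul, hf, map_mul, map_mul, map_X]
    congr 1
    fin_cases i
    · simp [LL, frobenius_def]
    · simp [LL, h1]

/-- **`Dns` for the letters `s ^ p`, `c ^ p`.** -/
theorem dns_twist (p : ℕ) [hp : Fact p.Prime] [CharP k p] [CharP Ω p] [IsAlgClosed k]
    {w : Fin 2 → ℝ} {y₀ : Ω} {Ψ : Polynomial Ω} (h : Dns k v w y₀ Ψ) :
    Dns k v (fun i => p * w i) (y₀ ^ p) (Ψ.map (frobenius Ω p)) := by
  intro d' hd H hiso hinv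
  have hp0 : (0 : ℝ) < p := by exact_mod_cast hp.out.pos
  have hroot : ∀ a : k, ∃ b : k, b ^ p = a ∧ (a = 0 → b = 0) := by
    intro a
    obtain ⟨b, hb⟩ := IsAlgClosed.exists_pow_nat_eq a hp.out.pos
    refine ⟨b, hb, fun h0 => ?_⟩
    rw [h0] at hb
    exact eq_zero_of_pow_eq_zero hb
  choose rt hrt hrt0 using hroot
  set H' : MvPolynomial (Fin 2) k := ∑ m ∈ H.support, monomial m (rt (coeff m H)) with hH'
  have hc : ∀ m, coeff m H' = rt (coeff m H) := by
    classical
    intro m
    rw [hH', coeff_sum]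
    simp_rw [coeff_monomial]
    rw [Finset.sum_ite_eq']
    split_ifs with h1
    · rfl
    · rw [notMem_support_iff.1 h1, hrt0 0 rfl]
  have hmap : MvPolynomial.map (frobenius k p) H' = H := by
    ext m
    rw [coeff_map, hc, frobenius_def, hrt]
  have hwt : ∀ m : Ex, wt (fun i => (p : ℝ) * w i) m = p * wt w m := fun m => by
    simp only [wt]
    ring
  have h0 : H' = 0 := by
    refine h (d' / p) (by positivity) H' (fun m hm => ?_) (fun be => ?_)
    · have h1 : m ∈ H.support := by
        rw [mem_support_iff] at hm ⊢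
        intro h2
        apply hm
        rw [hc, h2, hrt0 0 rfl]
      have h2 := hiso m h1
      rw [hwt] at h2
      rw [← h2]
      field_simp
    · have h1 := hinv be
      rw [← hmap, ← LL_twist p, hwt] at h1
      have h2 : MvPolynomial.map (algebraMap k Ω) (MvPolynomial.map (frobenius k p) H') =
          MvPolynomial.map (frobenius Ω p) (MvPolynomial.map (algebraMap k Ω) H') := by
        ext m
        simp only [coeff_map, frobenius_def, map_pow]
      rw [h2, ← map_sub, coeff_map, frobenius_def] at h1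
      intro h3
      have h4 := h1 (pow_ne_zero _ h3)
      rw [v.map_pow h3] at h4
      have h5 : (p : ℝ) * (wt w be - d' / p) < p * v (coeff be
          (LL y₀ Ψ H' - MvPolynomial.map (algebraMap k Ω) H')) := by
        have h6 : (p : ℝ) * (wt w be - d' / p) = p * wt w be - d' := by
          field_simp
        rw [h6]
        exact h4
      exact lt_of_mul_lt_mul_left h5 hp0.le
  rw [← hmap, h0, map_zero]

end Pool.Agent.TWLG76
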